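import Pool.Agent.Lib.MP_d9512b_co.Star

set_option autoImplicit false

/-!
4-connected graphs: basic facts, and the configurations at a vertex of large degree.
-/

namespace Pool.Agent.Lib.MP_d9512b_co

open Set

variable {V : Type*} {G : SimpleGraph V} {C X Z Z' : Set V} {x y z : V}

/-- The connectivity of the graph is at least `4`. -/
def Cn4 (G : SimpleGraph V) : Prop :=
  5 ≤ Nat.card V ∧ ∀ X : Set V, X.ncard ≤ 3 → ∀ a b, a ∉ X → b ∉ X → Rc G Xᶜ a b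

/-- Sets with few neighbours. -/
theorem Cn4.le_nb [Finite V] (h : Cn4 G) (hx : x ∈ C) (hz : z ∉ C) (hz' : z ∉ Nb G C) :
    4 ≤ (Nb G C).ncard := by
  by_contra hcon
  push Not at hcon
  have h1 := h.2 (Nb G C) (by omega) x z (fun h2 => h2.1 hx) hz'
  have h2 : z ∈ C := by
    refine h1.mem_closed hx fun a ha b hb hab => ?_
    by_contra hbC
    exact hb ⟨hbC, a, ha, hab⟩
  exact hz h2

/-- All degrees are at least four. -/
theorem Cn4.four_le_nb_singleton [Finite V] (h : Cn4 G) (x : V) :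
    4 ≤ (Nb G {x}).ncard := by
  by_cases h1 : ∃ z, z ≠ x ∧ z ∉ Nb G {x}
  · obtain ⟨z, hz, hz'⟩ := h1
    exact h.le_nb (x := x) rfl hz hz'
  · push Not at h1
    have h2 : (univ : Set V) ⊆ insert x (Nb G {x}) := by
      intro z _
      by_cases hz : z = x
      · exact Or.inl hz
      · exact Or.inr (h1 z hz)
    have h3 := ncard_le_ncard h2
    have h4 := ncard_insert_le x (Nb G {x})
    rw [ncard_univ] at h3
    have := h.1
    omega

/-- The vertices outside of `Z` and `X`. -/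
def Ux (Z X : Set V) : Set V := {v | v ∉ Z ∧ v ∉ X}

theorem mem_Ux : x ∈ Ux Z X ↔ x ∉ Z ∧ x ∉ X := Iff.rfl

theorem mem_Ux2 {a b : V} : x ∈ Ux Z {a, b} ↔ x ∉ Z ∧ x ≠ a ∧ x ≠ b := by
  rw [mem_Ux, mem_insert_iff, mem_singleton_iff, not_or]

theorem mem_Ux3 {a b c : V} : x ∈ Ux Z {a, b, c} ↔ x ∉ Z ∧ x ≠ a ∧ x ≠ b ∧ x ≠ c := by
  rw [mem_Ux, mem_insert_iff, mem_insert_iff, mem_singleton_iff, not_or, not_or]

theorem mem_Ux4 {a b c d : V} :
    x ∈ Ux Z {a, b, c, d} ↔ x ∉ Z ∧ x ≠ a ∧ x ≠ b ∧ x ≠ c ∧ x ≠ d := by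
  rw [mem_Ux, mem_insert_iff, mem_insert_iff, mem_insert_iff, mem_singleton_iff, not_or, not_or,
    not_or]

/-- The vertices outside of `Z`, `a`, `b` and `c`. -/
abbrev W3 (Z : Set V) (a b c : V) : Set V := Ux Z {a, b, c}

theorem W3_comm {a b c : V} : W3 Z a b c = W3 Z b a c := by
  ext x
  rw [mem_Ux3, mem_Ux3]
  tauto

/-- A sequence `α` of vertices outside of `Z` such that no vertex of the sequence and no further
vertex separate the rest, but each pair `α i`, `α j` together with `η i j` does. -/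
structure Cfg (G : SimpleGraph V) (Z : Set V) (L : ℕ) (α : ℕ → V) (η : ℕ → ℕ → V) : Prop where
  aZ : ∀ i < L, α i ∉ Z
  inj : ∀ i < L, ∀ j < L, i ≠ j → α i ≠ α j
  one : ∀ i < L, ∀ z p q, p ∈ Ux Z {α i, z} → q ∈ Ux Z {α i, z} → Rc G (Ux Z {α i, z}) p q
  eZ : ∀ i < L, ∀ j < L, i ≠ j → η i j ∉ Z
  eA : ∀ i < L, ∀ j < L, i ≠ j → ∀ k < L, η i j ≠ α k
  symm : ∀ i j, η i j = η j i
  bad : ∀ i < L, ∀ j < L, i ≠ j → ∃ p ∈ W3 Z (α i) (α j) (η i j),
    ∃ q ∈ W3 Z (α i) (α j) (η i j), ¬ Rc G (W3 Z (α i) (α j) (η i j)) p q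

/-- A cyclic arrangement of the vertices `β i`: any two of them together with `y` separate the
vertices between them from the other ones. -/
structure Cyc (G : SimpleGraph V) (Z : Set V) (L : ℕ) (β : ℕ → V) (y : V) : Prop where
  bZ : ∀ i < L, β i ∉ Z
  inj : ∀ i < L, ∀ j < L, i ≠ j → β i ≠ β j
  one : ∀ i < L, ∀ z p q, p ∈ Ux Z {β i, z} → q ∈ Ux Z {β i, z} → Rc G (Ux Z {β i, z}) p q
  yZ : y ∉ Z
  yB : ∀ i < L, y ≠ β i
  sepL : ∀ i j k l, l < i → i < k → k < j → j < L → ¬ Rc G (W3 Z (β i) (β j) y) (β k) (β l)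
  sepR : ∀ i j k l, i < k → k < j → j < l → l < L → ¬ Rc G (W3 Z (β i) (β j) y) (β k) (β l)
  mid : ∀ i j k l, i < k → k < l → l < j → j < L → Rc G (W3 Z (β i) (β j) y) (β k) (β l)
  outL : ∀ i j k l, k < l → l < i → i < j → j < L → Rc G (W3 Z (β i) (β j) y) (β k) (β l)
  outR : ∀ i j k l, i < j → j < k → k < l → l < L → Rc G (W3 Z (β i) (β j) y) (β k) (β l)
  outLR : ∀ i j k l, k < i → i < j → j < l → l < L → Rc G (W3 Z (β i) (β j) y) (β k) (β l)

end Pool.Agent.Lib.MP_d9512b_co
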