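import Pool.Agent.Lib.MP_d9512b_co.H4.Six

set_option autoImplicit false

/-!
A long cyclic arrangement of neighbours of a vertex gives a good set.
-/

namespace Pool.Agent.Lib.MP_d9512b_co

open Set

section Gen

variable {V : Type*} {G : SimpleGraph V} {Z : Set V} {L : ℕ} {β : ℕ → V} {y : V}

/-- The piece between `i` and `j` which contains `β k`. -/
abbrev Pc (G : SimpleGraph V) (Z : Set V) (β : ℕ → V) (y : V) (i j k : ℕ) : Set V :=
  cmp G (W3 Z (β i) (β j) y) (β k)

theorem Cyc.notMem (C : Cyc G Z L β y) {i j k l : ℕ} (hik : i < k) (hkj : k < j) (hj : j < L)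
    (hl : l < L) (h : l ≤ i ∨ j ≤ l) : β l ∉ Pc G Z β y i j k := by
  intro hx
  have h1 := mem_Ux3.1 (cmp_subset hx)
  rcases h with h | h
  · rcases h.eq_or_lt with rfl | h
    · exact h1.2.1 rfl
    · exact C.sepL i j k l h hik hkj hj hx
  · rcases h.eq_or_lt with rfl | h
    · exact h1.2.2.1 rfl
    · exact C.sepR i j k l hik hkj h hl hx

theorem Cyc.con (C : Cyc G Z L β y) {i j k : ℕ} (hik : i < k) (hkj : k < j) (hj : j < L) :
    Con G (Pc G Z β y i j k) :=
  con_cmp (C.mem (by omega) hj (by omega) (by omega) (by omega))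

theorem Cyc.self (C : Cyc G Z L β y) {i j k : ℕ} (hik : i < k) (hkj : k < j) (hj : j < L) :
    β k ∈ Pc G Z β y i j k :=
  mem_cmp_self (C.mem (by omega) hj (by omega) (by omega) (by omega))

theorem Cyc.disj (C : Cyc G Z L β y) {i j k i' j' k' : ℕ} (hik : i < k) (hkj : k < j)
    (hji : j ≤ i') (hik' : i' < k') (hkj' : k' < j') (hj' : j' < L) :
    ∀ z ∈ Pc G Z β y i j k, z ∉ Pc G Z β y i' j' k' := by
  intro z hz hz'
  have hsub : Pc G Z β y i j k ⊆ W3 Z (β i') (β j') y := by
    intro x hx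
    have h1 := mem_Ux3.1 (cmp_subset hx)
    refine mem_Ux3.2 ⟨h1.1, ?_, ?_, h1.2.2.2⟩
    · rintro rfl
      exact C.notMem hik hkj (by omega) (by omega) (Or.inr hji) hx
    · rintro rfl
      exact C.notMem hik hkj (by omega) (by omega) (Or.inr (by omega)) hx
  have hj : j < L := by omega
  refine C.notMem hik' hkj' hj' (l := k) (by omega) (Or.inl (by omega)) ?_
  exact Rc.trans hz' ((C.con hik hkj hj).rc hsub hz (C.self hik hkj hj))

/-- The neighbours of a piece. -/
theorem Pc_nb {i j k : ℕ} {q : V} (hq : q ∈ Nb G (Pc G Z β y i j k)) :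
    q ∈ Z ∨ q = β i ∨ q = β j ∨ q = y := by
  by_contra hcon
  push Not at hcon
  exact notMem_of_mem_nb_cmp hq (mem_Ux3.2 ⟨hcon.1, hcon.2.1, hcon.2.2.1, hcon.2.2.2⟩)

end Gen

variable {V : Type} {G : SimpleGraph V} {L : ℕ} {β : ℕ → V} {y w : V}

/-- Large pieces all of whose neighbours of `w` are cutvertices. -/
theorem Cyc.good_path [Finite V] (h : Cn4 G) (C : Cyc G {w} L β y)
    (hw : ∀ i < L, G.Adj w (β i)) {n : ℕ} (hn : 1 ≤ n) {i j k : ℕ} (hik : i < k) (hkj : k < j)
    (hj : j + 8 < L) (hcard : n ≤ (Pc G {w} β y i j k).ncard)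
    (hcut : ∀ u ∈ Pc G {w} β y i j k, G.Adj w u →
      ¬ Rc G ((insert (β i) (insert (β j) (Pc G {w} β y i j k))) \ {u}) (β i) (β j)) :
    ∃ S, Good G n S := by
  classical
  set P := Pc G {w} β y i j k with hP
  have hPc : Con G P := C.con hik hkj (by omega)
  have hkP : β k ∈ P := C.self hik hkj (by omega)
  have hPx : ∀ x ∈ P, x ≠ w ∧ x ≠ β i ∧ x ≠ β j ∧ x ≠ y := fun x hx => mem_Ux3.1 (cmp_subset hx)
  have hPnb : ∀ q ∈ Nb G P, q = w ∨ q = β i ∨ q = β j ∨ q = y := fun q hq => Pc_nb hq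
  have hwy : w ≠ y := fun e => C.yZ e.symm
  have hout : ∀ l, l < L → l ≤ i ∨ j ≤ l → β l ∉ P := fun l hl h =>
    C.notMem hik hkj (by omega) hl h
  obtain ⟨nI, nJ, nY⟩ := C.nb (i := i) (j := j) (k := k) (l := j + 1) (by omega) (by omega)
    (by omega) (by omega) (by omega) (by omega) (by omega) (by omega)
    (C.sepR i j k (j + 1) hik hkj (by omega) (by omega))
  -- the connected set with the two ends
  set H := insert (β i) (insert (β j) P) with hH
  have hHc : Con G H := (hPc.nb_ins nJ).nb_ins (y := β i) (by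
    obtain ⟨h1, c, hc, hci⟩ := nI
    refine ⟨?_, c, Or.inr hc, hci⟩
    rintro (e | e)
    · exact C.inj i (by omega) j (by omega) (by omega) e
    · exact h1 e)
  have hiH : β i ∈ H := Or.inl rfl
  have hjH : β j ∈ H := Or.inr (Or.inl rfl)
  have hPH : P ⊆ H := fun x hx => Or.inr (Or.inr hx)
  have hHnb : ∀ x ∈ P, ∀ q, G.Adj x q → q ∈ H ∨ q = w ∨ q = y := by
    intro x hx q hxq
    by_cases hq : q ∈ P
    · exact Or.inl (hPH hq)
    · rcases hPnb q ⟨hq, x, hx, hxq⟩ with e | e | e | e
      · exact Or.inr (Or.inl e)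
      · exact Or.inl (Or.inl e)
      · exact Or.inl (Or.inr (Or.inl e))
      · exact Or.inr (Or.inr e)
  -- all vertices are cutvertices
  have hall : ∀ x ∈ H, x ∈ Cut G H (β i) (β j) := by
    intro x hx
    by_contra hxc
    have hx' : x ∈ H \ Cut G H (β i) (β j) := ⟨hx, hxc⟩
    set W := cmp G (H \ Cut G H (β i) (β j)) x with hWdef
    have hW : Con G W := con_cmp hx'
    have hWH : W ⊆ H \ Cut G H (β i) (β j) := cmp_subset
    have hWP : W ⊆ P := by
      intro z hz
      have h1 := hWH hz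
      rcases h1.1 with e | e | e
      · exact absurd (by rw [e]; exact left_mem_cut hiH) h1.2
      · exact absurd (by rw [e]; exact right_mem_cut hjH) h1.2
      · exact e
    have hN : Nb G W ∩ H ⊆ Cut G H (β i) (β j) := by
      rintro z ⟨hz, hzH⟩
      by_contra hzc
      exact notMem_of_mem_nb_cmp hz ⟨hzH, hzc⟩
    have h2 := nb_comp_cut hHc hiH hjH hW hWH hN
    have h3 : Nb G W ⊆ insert y (Nb G W ∩ H) := by
      rintro z hz
      have hz' := hz
      obtain ⟨-, c, hc, hcz⟩ := hz'
      rcases hHnb c (hWP hc) z hcz with e | e | e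
      · exact Or.inr ⟨hz, e⟩
      · exfalso
        subst e
        exact (hWH hc).2 ⟨(hWH hc).1, hcut c (hWP hc) hcz.symm⟩
      · exact Or.inl e
    have h4 : 4 ≤ (Nb G W).ncard := by
      refine h.le_nb (C := W) (x := x) (z := β (j + 1)) (mem_cmp_self hx') ?_ ?_
      · exact fun e => hout (j + 1) (by omega) (Or.inr (by omega)) (hWP e)
      · rintro ⟨-, c, hc, hcz⟩
        rcases hHnb c (hWP hc) _ hcz with (e | e | e) | e | e
        · exact C.inj (j + 1) (by omega) i (by omega) (by omega) e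
        · exact C.inj (j + 1) (by omega) j (by omega) (by omega) e
        · exact hout (j + 1) (by omega) (Or.inr (by omega)) e
        · exact C.bZ (j + 1) (by omega) e
        · exact C.yB (j + 1) (by omega) e.symm
    have h5 := ncard_le_ncard h3 (toFinite _)
    have h6 := ncard_insert_le y (Nb G W ∩ H)
    omega
  -- the neighbours `w` and `y`
  have htwo : ∀ x ∈ P, G.Adj x w ∧ G.Adj x y := by
    intro x hx
    have h2 : (Nb G {x} ∩ H).ncard ≤ 2 := by
      by_contra hcon
      obtain ⟨c1, h1, c2, h2, c3, h3, n12, n13, n23⟩ :=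
        exists_three (U := Nb G {x} ∩ H) (by omega)
      have hsub : ∀ c ∈ Nb G {x} ∩ H, ({x} : Set V) ⊆ H \ {c} := by
        rintro c ⟨hc, -⟩ z hz
        rw [mem_singleton_iff] at hz
        subst hz
        exact ⟨hPH hx, fun e => hc.1 e.symm⟩
      exact cut_three hHc hiH hjH (hall _ h1.2) (hall _ h2.2) (hall _ h3.2) n12 n13 n23
        (nb_link (con_singleton x) h1.1 h2.1 (hsub c3 h3) ⟨h1.2, n13⟩ ⟨h2.2, n23⟩)
        (nb_link (con_singleton x) h1.1 h3.1 (hsub c2 h2) ⟨h1.2, n12⟩ ⟨h3.2, n23.symm⟩)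
        (nb_link (con_singleton x) h2.1 h3.1 (hsub c1 h1) ⟨h2.2, n12.symm⟩ ⟨h3.2, n13.symm⟩)
    have h3 := h.four_le_nb_singleton x
    have h4 := ncard_inter_add_ncard_sdiff_eq_ncard (Nb G {x}) H (toFinite _)
    obtain ⟨a, ⟨⟨-, c, hc, hca⟩, ha⟩, b, ⟨⟨-, d, hd, hdb⟩, hb⟩, hab⟩ :=
      exists_two (U := Nb G {x} \ H) (by omega)
    rw [mem_singleton_iff] at hc hd
    subst hc
    subst hd
    have ha' := (hHnb _ hx a hca).resolve_left ha
    have hb' := (hHnb _ hx b hdb).resolve_left hb
    rcases ha' with rfl | rfl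
    · rcases hb' with rfl | rfl
      · exact absurd rfl hab
      · exact ⟨hca, hdb⟩
    · rcases hb' with rfl | rfl
      · exact ⟨hdb, hca⟩
      · exact absurd rfl hab
  -- the complement of the piece is solid
  have hsol : Sol G Pᶜ := by
    refine sol_of_rc ⟨w, fun e => (hPx w e).1 rfl⟩ ?_ ⟨β k, fun h => h hkP⟩
    intro z
    have hmem : ∀ x, x ∉ P → x ≠ z → x ∈ Pᶜ \ {z} := fun x hx hxz => ⟨hx, hxz⟩
    have hwP : w ∉ P := fun e => (hPx w e).1 rfl
    have hyP : y ∉ P := fun e => (hPx y e).2.2.2 rfl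
    have hiP : β i ∉ P := fun e => (hPx _ e).2.1 rfl
    have hjP : β j ∉ P := fun e => (hPx _ e).2.2.1 rfl
    obtain ⟨ρ, hρP, hρz, hρ⟩ : ∃ ρ, ρ ∉ P ∧ ρ ≠ z ∧ ∀ s, (s = w ∨ s = β i ∨ s = β j ∨ s = y) →
        s ≠ z → Rc G (Pᶜ \ {z}) s ρ := by
      by_cases hzw : z = w
      · -- use the outer component
        subst hzw
        have hO : Con G (cmp G (W3 {z} (β i) (β j) y) (β (j + 1))) :=
          con_cmp (C.mem (by omega) (by omega) (by omega) (by omega) (by omega))
        obtain ⟨oI, oJ, oY⟩ := C.nb (i := i) (j := j) (k := j + 1) (l := k) (by omega)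
          (by omega) (by omega) (by omega) (by omega) (by omega) (by omega) (by omega)
          (fun e => C.sepR i j k (j + 1) hik hkj (by omega) (by omega) e.symm)
        have hOP : cmp G (W3 {z} (β i) (β j) y) (β (j + 1)) ⊆ Pᶜ \ {z} := by
          intro x hx
          refine ⟨fun hxP => ?_, fun e => (mem_Ux3.1 (cmp_subset hx)).1 e⟩
          exact C.sepR i j k (j + 1) hik hkj (by omega) (by omega)
            (Rc.trans hxP (Rc.symm hx))
        refine ⟨y, hyP, hwy.symm, ?_⟩
        rintro s (e | e | e | e) hsz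
        · exact absurd e hsz
        · subst e
          exact nb_link hO oI oY hOP (hmem _ hiP hsz) (hmem _ hyP hwy.symm)
        · subst e
          exact nb_link hO oJ oY hOP (hmem _ hjP hsz) (hmem _ hyP hwy.symm)
        · subst e
          exact Rc.refl (hmem _ hyP hsz)
      · refine ⟨w, hwP, fun e => hzw e.symm, ?_⟩
        have hwm : w ∈ Pᶜ \ {z} := hmem w hwP (fun e => hzw e.symm)
        rintro s (e | e | e | e) hsz
        · subst e
          exact Rc.refl hwm
        · subst e
          exact Rc.adj (hmem _ hiP hsz) hwm (hw i (by omega)).symm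
        · subst e
          exact Rc.adj (hmem _ hjP hsz) hwm (hw j (by omega)).symm
        · subst e
          -- a piece without `z`
          obtain ⟨r, hr1, hr2, hrz⟩ : ∃ r, j ≤ r ∧ r + 3 < L ∧
              z ∉ Pc G {w} β s r (r + 2) (r + 1) := by
            by_cases hz1 : z ∈ Pc G {w} β s (j + 1) (j + 1 + 2) (j + 1 + 1)
            · exact ⟨j + 4, by omega, by omega, C.disj (by omega) (by omega) (by omega)
                (by omega) (by omega) (by omega) z hz1⟩
            · exact ⟨j + 1, by omega, by omega, hz1⟩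
          have hMP : Pc G {w} β s r (r + 2) (r + 1) ⊆ Pᶜ \ {z} := by
            intro x hx
            exact ⟨fun hxP => C.disj hik hkj hr1 (by omega) (by omega) (by omega) x hxP hx,
              fun e => hrz (by
                rw [mem_singleton_iff] at e
                exact e ▸ hx)⟩
          obtain ⟨-, -, mY⟩ := C.nb (i := r) (j := r + 2) (k := r + 1) (l := r + 3) (by omega)
            (by omega) (by omega) (by omega) (by omega) (by omega) (by omega) (by omega)
            (C.sepR r (r + 2) (r + 1) (r + 3) (by omega) (by omega) (by omega) (by omega))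
          have hself : β (r + 1) ∈ Pc G {w} β s r (r + 2) (r + 1) :=
            C.self (by omega) (by omega) (by omega)
          have mW : w ∈ Nb G (Pc G {w} β s r (r + 2) (r + 1)) :=
            ⟨fun e => (mem_Ux3.1 (cmp_subset e)).1 rfl, _, hself, (hw (r + 1) (by omega)).symm⟩
          exact nb_link (C.con (by omega) (by omega) (by omega)) mY mW hMP (hmem _ hyP hsz) hwm
    have hroot : ∀ a, a ∈ Pᶜ → a ≠ z → Rc G (Pᶜ \ {z}) a ρ := by
      intro a ha haz
      by_contra hcon
      have haU : a ∈ Pᶜ \ {z} := ⟨ha, haz⟩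
      set F := cmp G (Pᶜ \ {z}) a with hF
      have h4 : 4 ≤ (Nb G F).ncard := h.le_nb (mem_cmp_self haU) (z := ρ) hcon
        (fun e => notMem_of_mem_nb_cmp e (hmem ρ hρP hρz))
      obtain ⟨q, hqF, hqz⟩ : ∃ q ∈ Nb G F, q ≠ z := by
        by_contra hc
        push Not at hc
        have h5 := ncard_le_ncard (show Nb G F ⊆ {z} from hc) (toFinite _)
        rw [ncard_singleton] at h5
        omega
      have hqP : q ∈ P := by
        by_contra e
        exact notMem_of_mem_nb_cmp hqF (hmem q e hqz)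
      obtain ⟨-, f, hf, hfq⟩ := hqF
      have hf' := cmp_subset hf
      exact hcon (Rc.trans hf (hρ f (hPnb f ⟨hf'.1, q, hqP, hfq.symm⟩) hf'.2))
    intro a ha b hb haz hbz
    exact (hroot a ha haz).trans (hroot b hb hbz).symm
  -- the good set
  obtain ⟨S, hS, -, hcS, hScard⟩ := hPc.exists_card hkP hn hcard
  have hSc : Sᶜ = Pᶜ ∪ (P \ S) := by
    ext z
    constructor
    · intro hz
      by_cases hzP : z ∈ P
      · exact Or.inr ⟨hzP, hz⟩
      · exact Or.inl hzP
    · rintro (hz | hz) hzS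
      · exact hz (hS hzS)
      · exact hz.2 hzS
  refine ⟨S, hScard, hcS, ?_, ?_⟩
  · rw [hSc]
    refine hsol.union_of_two fun d hd => ⟨w, fun e => (hPx w e).1 rfl, y,
      fun e => (hPx y e).2.2.2 rfl, hwy, (htwo d hd.1).1, (htwo d hd.1).2⟩
  · have h1 : ({w, y, β i} : Set V) ⊆ Sᶜ := by
      rintro x (rfl | rfl | rfl) hx
      · exact (hPx _ (hS hx)).1 rfl
      · exact (hPx _ (hS hx)).2.2.2 rfl
      · exact (hPx _ (hS hx)).2.1 rfl
    have h2 := ncard_le_ncard h1 (toFinite _)
    have h3 : ({w, y, β i} : Set V).ncard = 3 := by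
      rw [ncard_eq_three]
      refine ⟨w, y, β i, hwy, ?_, ?_, rfl⟩
      · exact fun e => C.bZ i (by omega) e.symm
      · exact C.yB i (by omega)
    omega

end Pool.Agent.Lib.MP_d9512b_co
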