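import Pool.Agent.Lib.MP_d9512b_co.H4.LemC

set_option autoImplicit false

/-!
A long cyclic arrangement of neighbours of a vertex gives a good set: the star.
-/

namespace Pool.Agent.Lib.MP_d9512b_co

open Set

variable {V : Type} {G : SimpleGraph V} {L : ℕ} {β : ℕ → V} {y w : V}

/-- The number of elements of a piece. -/
theorem Cyc.card_le [Finite V] (C : Cyc G {w} L β y) {i j k m : ℕ} (hik : i < k) (hkj : k < j)
    (hj : j < L) (hm : i + m < j) : m ≤ (Pc G {w} β y i j k).ncard := by
  classical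
  have h1 : (β '' (Finset.Ioc i (i + m) : Set ℕ)).ncard = m := by
    rw [InjOn.ncard_image, ncard_coe_finset, Nat.card_Ioc]
    · omega
    · intro a ha b hb hab
      rw [Finset.mem_coe, Finset.mem_Ioc] at ha hb
      by_contra hne
      exact C.inj a (by omega) b (by omega) hne hab
  have h2 : β '' (Finset.Ioc i (i + m) : Set ℕ) ⊆ Pc G {w} β y i j k := by
    rintro _ ⟨a, ha, rfl⟩
    rw [Finset.mem_coe, Finset.mem_Ioc] at ha
    rcases lt_trichotomy a k with h | h | h
    · exact (C.mid i j a k (by omega) h hkj hj).symm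
    · subst h
      exact C.self hik hkj hj
    · exact C.mid i j k a hik h (by omega) hj
  calc m = _ := h1.symm
    _ ≤ _ := ncard_le_ncard h2 (toFinite _)

theorem Cyc.good [Finite V] (h : Cn4 G) (C : Cyc G {w} L β y) (hw : ∀ i < L, G.Adj w (β i))
    {n : ℕ} (hn : 1 ≤ n) (t : ℕ → ℕ) (hts : ∀ i, t (i + 1) = t i + (n + 1))
    (hL : t n + 12 ≤ L) (hV : n + 3 ≤ Nat.card V) : ∃ S, Good G n S := by
  classical
  have htm : ∀ i j, i < j → t i + (n + 1) ≤ t j := by
    intro i j hij
    induction j, hij using Nat.le_induction with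
    | base => rw [hts i]
    | succ j _ ih =>
      rw [hts j]
      omega
  have htn : ∀ i, i ≤ n → t i ≤ t n := by
    intro i hi
    rcases hi.eq_or_lt with rfl | hi
    · exact le_rfl
    · have := htm i n hi
      omega
  by_cases hex : ∃ i < n, ∀ u ∈ Pc G {w} β y (t i) (t (i + 1)) (t i + 1), G.Adj w u →
      ¬ Rc G ((insert (β (t i)) (insert (β (t (i + 1)))
        (Pc G {w} β y (t i) (t (i + 1)) (t i + 1)))) \ {u}) (β (t i)) (β (t (i + 1)))
  · obtain ⟨i, hi, hcut⟩ := hex
    have h1 := hts i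
    have h2 := htn (i + 1) hi
    exact C.good_path h hw hn (by omega) (by omega) (by omega)
      (C.card_le (by omega) (by omega) (by omega) (by omega)) hcut
  push Not at hex
  have hch : ∀ i, ∃ u, i < n → (u ∈ Pc G {w} β y (t i) (t (i + 1)) (t i + 1) ∧ G.Adj w u ∧
      Rc G ((insert (β (t i)) (insert (β (t (i + 1)))
        (Pc G {w} β y (t i) (t (i + 1)) (t i + 1)))) \ {u}) (β (t i)) (β (t (i + 1)))) := by
    intro i
    by_cases hi : i < n
    · obtain ⟨u, h1, h2, h3⟩ := hex i hi
      exact ⟨u, fun _ => ⟨h1, h2, h3⟩⟩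
    · exact ⟨w, fun h => absurd h hi⟩
  choose u hu using hch
  set P : ℕ → Set V := fun i => Pc G {w} β y (t i) (t (i + 1)) (t i + 1) with hP
  set e : ℕ → V := fun i => β (t i) with he
  -- facts on the pieces
  have hik : ∀ i, t i < t i + 1 := fun i => by omega
  have hkj : ∀ i, t i + 1 < t (i + 1) := fun i => by
    rw [hts i]
    omega
  have hjL : ∀ i, i < n → t (i + 1) < L := fun i hi => by
    have := htn (i + 1) hi
    omega
  have hPc : ∀ i, i < n → Con G (P i) := fun i hi => C.con (hik i) (hkj i) (hjL i hi)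
  have hPx : ∀ i, ∀ x ∈ P i, x ≠ w ∧ x ≠ e i ∧ x ≠ e (i + 1) ∧ x ≠ y := fun i x hx =>
    mem_Ux3.1 (cmp_subset hx)
  have hPnb : ∀ i, ∀ q ∈ Nb G (P i), q = w ∨ q = e i ∨ q = e (i + 1) ∨ q = y := fun i q hq =>
    Pc_nb hq
  have hPe : ∀ i < n, ∀ m ≤ n, e m ∉ P i := by
    intro i hi m hm
    refine C.notMem (hik i) (hkj i) (hjL i hi) ?_ ?_
    · have := htn m hm
      omega
    · rcases lt_or_ge i m with h1 | h1
      · right
        rcases (show i + 1 ≤ m from h1).eq_or_lt with h2 | h2
        · rw [h2]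
        · have := htm (i + 1) m h2
          omega
      · left
        rcases h1.eq_or_lt with h2 | h2
        · rw [h2]
        · have := htm m i h2
          omega
  have hPd : ∀ i < n, ∀ j < n, i ≠ j → ∀ z ∈ P i, z ∉ P j := by
    have key : ∀ i j, i < j → j < n → ∀ z ∈ P i, z ∉ P j := by
      intro i j hij hj z hz
      refine C.disj (hik i) (hkj i) ?_ (hik j) (hkj j) (hjL j hj) z hz
      rcases (show i + 1 ≤ j from hij).eq_or_lt with h2 | h2
      · rw [h2]
      · have := htm (i + 1) j h2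
        omega
    intro i hi j hj hij z hz hz'
    rcases lt_or_gt_of_ne hij with h1 | h1
    · exact key i j h1 hj z hz hz'
    · exact key j i h1 hi z hz' hz
  have hPnn : ∀ i < n, e i ∈ Nb G (P i) ∧ e (i + 1) ∈ Nb G (P i) ∧ y ∈ Nb G (P i) := by
    intro i hi
    have h1 := hjL i hi
    have h2 := hkj i
    have h3 := htn (i + 1) hi
    exact C.nb (i := t i) (j := t (i + 1)) (k := t i + 1) (l := t n + 1) (by omega) h1 (by omega)
      (by omega) (by omega) (by omega) (by omega) (by omega)
      (C.sepR _ _ _ _ (hik i) h2 (by omega) (by omega))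
  -- the outer component
  set O : Set V := cmp G (W3 {w} (e 0) (e n) y) (β (t n + 1)) with hO
  have h0n : t 0 + (n + 1) ≤ t n := htm 0 n hn
  have hOm : β (t n + 1) ∈ W3 {w} (e 0) (e n) y :=
    C.mem (i := t 0) (j := t n) (k := t n + 1) (by omega) (by omega) (by omega) (by omega)
      (by omega)
  have hOc : Con G O := con_cmp hOm
  have hOx : ∀ x ∈ O, x ≠ w ∧ x ≠ e 0 ∧ x ≠ e n ∧ x ≠ y := fun x hx => mem_Ux3.1 (cmp_subset hx)
  obtain ⟨oI, oJ, oY⟩ : e 0 ∈ Nb G O ∧ e n ∈ Nb G O ∧ y ∈ Nb G O :=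
    C.nb (i := t 0) (j := t n) (k := t n + 1) (l := t 0 + 1) (by omega) (by omega) (by omega)
      (by omega) (by omega) (by omega) (by omega) (by omega)
      (fun h => C.sepR (t 0) (t n) (t 0 + 1) (t n + 1) (by omega) (by omega) (by omega)
        (by omega) h.symm)
  have hOe : ∀ m ≤ n, e m ∉ O := by
    intro m hm hx
    have h1 := htn m hm
    rcases Nat.eq_zero_or_pos m with h2 | h2
    · subst h2
      exact (hOx _ hx).2.1 rfl
    · rcases hm.eq_or_lt with h3 | h3
      · subst h3
        exact (hOx _ hx).2.2.1 rfl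
      · have h4 := htm 0 m h2
        have h5 := htm m n h3
        exact C.sepR (t 0) (t n) (t m) (t n + 1) (by omega) (by omega) (by omega) (by omega)
          (Rc.symm hx)
  have hOP : ∀ i < n, ∀ z ∈ P i, z ∉ O := by
    intro i hi z hz hzO
    have hsub : P i ⊆ W3 {w} (e 0) (e n) y := by
      intro x hx
      have h1 := hPx i x hx
      exact mem_Ux3.2 ⟨h1.1, fun E => hPe i hi 0 (by omega) (E ▸ hx),
        fun E => hPe i hi n le_rfl (E ▸ hx), h1.2.2.2⟩
    have h1 := hjL i hi
    have h2 := hkj i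
    have h3 := htn (i + 1) hi
    have h4 : t 0 ≤ t i := by
      rcases Nat.eq_zero_or_pos i with h5 | h5
      · rw [h5]
      · have := htm 0 i h5
        omega
    exact C.sepR (t 0) (t n) (t i + 1) (t n + 1) (by omega) (by omega) (by omega) (by omega)
      ((Rc.trans hzO ((hPc i hi).rc hsub hz (C.self (hik i) h2 h1))).symm)
  have hwy : w ≠ y := fun E => C.yZ E.symm
  have hew : ∀ m ≤ n, e m ≠ w := fun m hm E => C.bZ (t m) (by
    have := htn m hm
    omega) E
  have hey : ∀ m ≤ n, e m ≠ y := fun m hm E => C.yB (t m) (by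
    have := htn m hm
    omega) E.symm
  -- the star
  set S : Set V := insert w (u '' {i | i < n - 1}) with hS
  have hin : ∀ i, i < n - 1 → i < n := fun i hi => by omega
  have huinj : InjOn u {i | i < n - 1} := by
    intro i hi j hj hij
    rw [mem_ofPred_eq] at hi hj
    by_contra hne
    exact hPd i (hin i hi) j (hin j hj) hne (u i) (hu i (hin i hi)).1
      (hij ▸ (hu j (hin j hj)).1)
  have hScard : S.ncard = n := by
    rw [hS, ncard_insert_of_notMem _ (toFinite _), huinj.ncard_image]
    · have : {i : ℕ | i < n - 1} = (Finset.range (n - 1) : Set ℕ) := by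
        ext i
        simp
      rw [this, ncard_coe_finset, Finset.card_range]
      omega
    · rintro ⟨i, hi, E⟩
      exact (hPx i _ (hu i (hin i hi)).1).1 E
  have hScon : Con G S := by
    apply con_star
    rintro _ ⟨i, hi, rfl⟩
    exact (hu i (hin i hi)).2.1
  have hSx : ∀ x, x ≠ w → (∀ i < n - 1, x ≠ u i) → x ∉ S := by
    rintro x hx hxu (E | ⟨i, hi, E⟩)
    · exact hx E
    · exact hxu i hi E.symm
  have hSe : ∀ m ≤ n, e m ∉ S := fun m hm => hSx _ (hew m hm) fun i hi E =>
    hPe i (hin i hi) m hm (E ▸ (hu i (hin i hi)).1)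
  have hSy : y ∉ S := hSx _ hwy.symm fun i hi E => (hPx i _ (hu i (hin i hi)).1).2.2.2 E.symm
  have hSO : ∀ x ∈ O, x ∉ S := fun x hx => hSx _ (hOx x hx).1 fun i hi E =>
    hOP i (hin i hi) _ (hu i (hin i hi)).1 (E ▸ hx)
  have hSP : ∀ i < n, ∀ x ∈ P i, x ≠ u i → x ∉ S := fun i hi x hx hxu =>
    hSx _ (hPx i x hx).1 fun j hj E => by
      by_cases hij : i = j
      · subst hij
        exact hxu E
      · exact hPd i hi j (hin j hj) hij x hx (E ▸ (hu j (hin j hj)).1)
  have hSlast : ∀ x ∈ P (n - 1), x ∉ S := fun x hx =>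
    hSx _ (hPx _ x hx).1 fun j hj E =>
      hPd (n - 1) (by omega) j (hin j hj) (by omega) x hx (E ▸ (hu j (hin j hj)).1)
  refine ⟨S, good_of_rc hScon hScard hV ?_⟩
  intro z hzS
  have hzw : z ≠ w := fun E => hzS (Or.inl E)
  have hmem : ∀ x, x ∉ S → x ≠ z → x ∈ (insert z S)ᶜ := by
    rintro x hx hxz (E | E)
    · exact hxz E
    · exact hx E
  -- links
  have hlink : ∀ i < n, z ∉ P i → z ≠ e i → z ≠ e (i + 1) →
      Rc G (insert z S)ᶜ (e i) (e (i + 1)) := by
    intro i hi h1 h2 h3
    refine (hu i hi).2.2.mono ?_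
    rintro x ⟨hx, hxu⟩
    rw [mem_singleton_iff] at hxu
    rcases hx with E | E | E
    · exact hmem x (E ▸ hSe i (by omega)) (fun E' => h2 (E'.symm.trans E))
    · exact hmem x (E ▸ hSe (i + 1) (by omega)) (fun E' => h3 (E'.symm.trans E))
    · exact hmem x (hSP i hi x E hxu) (fun E' => h1 (E' ▸ E))
  have hfwd : ∀ m ≤ n, (∀ i < m, z ∉ P i) → (∀ i ≤ m, z ≠ e i) →
      Rc G (insert z S)ᶜ (e 0) (e m) := by
    intro m
    induction m with
    | zero =>
      intro _ _ h2
      exact Rc.refl (hmem _ (hSe 0 (by omega)) (h2 0 le_rfl).symm)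
    | succ m ih =>
      intro hm h1 h2
      exact (ih (by omega) (fun i hi => h1 i (by omega)) (fun i hi => h2 i (by omega))).trans
        (hlink m (by omega) (h1 m (by omega)) (h2 m (by omega)) (h2 (m + 1) le_rfl))
  have hbwd : ∀ d m, m + d = n → (∀ i, m ≤ i → i < n → z ∉ P i) → (∀ i, m ≤ i → i ≤ n → z ≠ e i) →
      Rc G (insert z S)ᶜ (e m) (e n) := by
    intro d
    induction d with
    | zero =>
      intro m hm _ h2
      have : m = n := by omega
      subst this
      exact Rc.refl (hmem _ (hSe m le_rfl) (h2 m le_rfl le_rfl).symm)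
    | succ d ih =>
      intro m hm h1 h2
      exact (hlink m (by omega) (h1 m le_rfl (by omega)) (h2 m le_rfl (by omega))
        (h2 (m + 1) (by omega) (by omega))).trans
        (ih (m + 1) (by omega) (fun i hi hi' => h1 i (by omega) hi')
          (fun i hi hi' => h2 i (by omega) hi'))
  have hein : ∀ m m', m ≤ n → m' ≤ n → m ≠ m' → e m ≠ e m' := by
    intro m m' hm hm' hne E
    have h1 := htn m hm
    have h2 := htn m' hm'
    refine C.inj (t m) (by omega) (t m') (by omega) ?_ E
    rcases lt_or_gt_of_ne hne with h3 | h3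
    · have := htm m m' h3
      omega
    · have := htm m' m h3
      omega
  have hOlink : z ∉ O → z ≠ e 0 → z ≠ e n → Rc G (insert z S)ᶜ (e 0) (e n) := by
    intro h1 h2 h3
    exact nb_link hOc oI oJ (fun x hx => hmem x (hSO x hx) (fun E => h1 (E ▸ hx)))
      (hmem _ (hSe 0 (by omega)) h2.symm) (hmem _ (hSe n le_rfl) h3.symm)
  -- the root
  obtain ⟨ρ, hρS, hρz, hρe⟩ : ∃ ρ, ρ ∉ S ∧ ρ ≠ z ∧ ∀ m ≤ n, e m ≠ z →
      Rc G (insert z S)ᶜ (e m) ρ := by
    by_cases hze : ∃ m ≤ n, z = e m
    · obtain ⟨m0, hm0, rfl⟩ := hze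
      have hzP : ∀ i < n, e m0 ∉ P i := fun i hi => hPe i hi m0 hm0
      have hzO : e m0 ∉ O := hOe m0 hm0
      by_cases h0 : m0 = 0
      · subst h0
        refine ⟨e n, hSe n le_rfl, hein n 0 le_rfl (by omega) (by omega), ?_⟩
        intro m hm hme
        have hm0' : m ≠ 0 := by
          rintro rfl
          exact hme rfl
        exact hbwd (n - m) m (by omega) (fun i _ hi => hzP i hi)
          (fun i hi hi' => hein 0 i (by omega) hi' (by omega))
      · refine ⟨e 0, hSe 0 (by omega), hein 0 m0 (by omega) hm0 (Ne.symm h0), ?_⟩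
        intro m hm hme
        have hmm : m ≠ m0 := by
          rintro rfl
          exact hme rfl
        rcases lt_or_gt_of_ne hmm with h1 | h1
        · exact (hfwd m hm (fun i hi => hzP i (by omega))
            (fun i hi => hein m0 i hm0 (by omega) (by omega))).symm
        · exact (hbwd (n - m) m (by omega) (fun i _ hi => hzP i hi)
            (fun i hi hi' => hein m0 i hm0 hi' (by omega))).trans
            (hOlink hzO (hein m0 0 hm0 (by omega) h0) (hein m0 n hm0 le_rfl (by omega))).symm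
    · push Not at hze
      refine ⟨e 0, hSe 0 (by omega), (hze 0 (by omega)).symm, ?_⟩
      by_cases hzP : ∃ i < n, z ∈ P i
      · obtain ⟨i0, hi0, hzi⟩ := hzP
        have hzO : z ∉ O := hOP i0 hi0 z hzi
        have hzP : ∀ i < n, i ≠ i0 → z ∉ P i := fun i hi hne h' => hPd i hi i0 hi0 hne z h' hzi
        intro m hm _
        rcases lt_or_ge i0 m with h1 | h1
        · exact (hbwd (n - m) m (by omega) (fun i hi hi' => hzP i hi' (by omega))
            (fun i _ hi' => hze i hi')).trans
            (hOlink hzO (hze 0 (by omega)) (hze n le_rfl)).symm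
        · exact (hfwd m hm (fun i hi => hzP i (by omega) (by omega))
            (fun i hi => hze i (by omega))).symm
      · push Not at hzP
        intro m hm _
        exact (hfwd m hm (fun i hi => hzP i (by omega)) (fun i hi => hze i (by omega))).symm
  -- the vertex `y`
  have hρy : y ≠ z → Rc G (insert z S)ᶜ y ρ := by
    intro hyz
    have hym : y ∈ (insert z S)ᶜ := hmem y hSy hyz
    by_cases hzO : z ∈ O
    · have hn1 : n - 1 < n := by omega
      have hnn : n - 1 + 1 = n := by omega
      obtain ⟨-, pJ, pY⟩ := hPnn (n - 1) hn1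
      rw [hnn] at pJ
      have hen : e n ≠ z := fun E => hOe n le_rfl (E ▸ hzO)
      refine (nb_link (hPc (n - 1) hn1) pY pJ ?_ hym (hmem _ (hSe n le_rfl) hen)).trans
        (hρe n le_rfl hen)
      exact fun x hx => hmem x (hSlast x hx) (fun E => hOP (n - 1) hn1 x hx (E ▸ hzO))
    · have hOsub : O ⊆ (insert z S)ᶜ := fun x hx => hmem x (hSO x hx) (fun E => hzO (E ▸ hx))
      by_cases hz0 : e 0 = z
      · have hen : e n ≠ z := fun E => hein 0 n (by omega) le_rfl (by omega) (hz0.trans E.symm)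
        exact (nb_link hOc oY oJ hOsub hym (hmem _ (hSe n le_rfl) hen)).trans
          (hρe n le_rfl hen)
      · exact (nb_link hOc oY oI hOsub hym (hmem _ (hSe 0 (by omega)) hz0)).trans
          (hρe 0 (by omega) hz0)
  -- all vertices
  have hmain : ∀ p, p ∉ insert z S → Rc G (insert z S)ᶜ p ρ := by
    intro p hp
    by_contra hcon
    set F := cmp G (insert z S)ᶜ p with hF
    have hFc : Con G F := con_cmp hp
    have h4 : 4 ≤ (Nb G F).ncard := h.le_nb (mem_cmp_self hp) (z := ρ) hcon
      (fun E => notMem_of_mem_nb_cmp E (hmem ρ hρS hρz))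
    have hFx : ∀ x ∈ F, x ≠ w ∧ (∀ m ≤ n, x ≠ e m) ∧ x ≠ y := by
      intro x hx
      have hx' := cmp_subset hx
      refine ⟨fun E => hx' (Or.inr (Or.inl E)), fun m hm E => ?_, fun E => ?_⟩
      · subst E
        exact hcon (Rc.trans hx (hρe m hm (fun E' => hx' (Or.inl E'))))
      · subst E
        exact hcon (Rc.trans hx (hρy (fun E' => hx' (Or.inl E'))))
    have hNF : Nb G F ⊆ {z, w} ∪ (u '' {i | i < n - 1 ∧ u i ∈ Nb G F}) := by
      intro q hq
      have hq' : q ∈ insert z S := by
        by_contra E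
        exact notMem_of_mem_nb_cmp hq E
      rcases hq' with E | E | ⟨i, hi, E⟩
      · exact Or.inl (Or.inl E)
      · exact Or.inl (Or.inr E)
      · exact Or.inr ⟨i, ⟨hi, E ▸ hq⟩, E⟩
    have hfin : {i | i < n - 1 ∧ u i ∈ Nb G F}.Finite :=
      (finite_lt_nat (n - 1)).subset fun i hi => hi.1
    obtain ⟨i, j, hi, hj, hij⟩ : ∃ i j, (i < n - 1 ∧ u i ∈ Nb G F) ∧
        (j < n - 1 ∧ u j ∈ Nb G F) ∧ i ≠ j := by
      have h1 := ncard_le_ncard hNF ((toFinite _))
      have h2 := ncard_union_le {z, w} (u '' {i | i < n - 1 ∧ u i ∈ Nb G F})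
      have h3 := ncard_image_le (f := u) hfin
      have h5 : ({z, w} : Set V).ncard ≤ 2 := by
        have := ncard_insert_le z {w}
        rw [ncard_singleton] at this
        exact this
      obtain ⟨i, j, hi, hj, hij⟩ := (one_lt_ncard_iff hfin).1 (by omega)
      exact ⟨i, j, hi, hj, hij⟩
    -- the component is contained in the piece
    have hsub : ∀ i, i < n - 1 → u i ∈ Nb G F → F ⊆ P i := by
      intro i hi hui
      obtain ⟨-, f, hf, hfu⟩ := hui
      have hin' := hin i hi
      have hfP : f ∈ P i := by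
        by_contra hfP
        have hfx := hFx f hf
        rcases hPnb i f ⟨hfP, u i, (hu i hin').1, hfu.symm⟩ with E | E | E | E
        · exact hfx.1 E
        · exact hfx.2.1 i (by omega) E
        · exact hfx.2.1 (i + 1) (by omega) E
        · exact hfx.2.2 E
      intro x hx
      by_contra hxP
      obtain ⟨a, ha, b, hb, haF, hbF, hab⟩ := hFc.exists_edge hfP hf hxP hx
      have hbx := hFx b hbF
      rcases hPnb i b ⟨hb, a, ha, hab⟩ with E | E | E | E
      · exact hbx.1 E
      · exact hbx.2.1 i (by omega) E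
      · exact hbx.2.1 (i + 1) (by omega) E
      · exact hbx.2.2 E
    have hpF : p ∈ F := mem_cmp_self hp
    exact hPd i (hin i hi.1) j (hin j hj.1) hij p (hsub i hi.1 hi.2 hpF) (hsub j hj.1 hj.2 hpF)
  intro p q hp hq
  exact (hmain p hp).trans (hmain q hq).symm

end Pool.Agent.Lib.MP_d9512b_co
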