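import Pool.Agent.Lib.MP_d9512b_co.H4.Pat

set_option autoImplicit false
set_option linter.unusedVariables false

/-!
Homogeneous configurations: no pair separates the others or they are arranged cyclically.
-/

namespace Pool.Agent.Lib.MP_d9512b_co

open Set

variable {V : Type*} {G : SimpleGraph V} {Z : Set V} {L : ℕ} {α : ℕ → V} {η : ℕ → ℕ → V}

theorem Cfg.corner (C : Cfg G Z L α η) {i j k l m : ℕ} (hi : i < L) (hj : j < L) (hk : k < L)
    (hl : l < L) (hij : i ≠ j) (hik : i ≠ k) (hil : i ≠ l) (hjk : j ≠ k) (hjl : j ≠ l)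
    (hkl : k ≠ l) (hne : η i j ≠ η k l)
    (s1 : ¬ Rc G (Wd Z α η i j) (α k) (α l)) (s2 : ¬ Rc G (Wd Z α η k l) (α j) (α i))
    (a1 : Rc G (Wd Z α η i j) (α k) (α m)) (b1 : Rc G (Wd Z α η k l) (α j) (α m)) :
    η i j ∈ cmp G (Wd Z α η k l) (α j) ∨ η k l ∈ cmp G (Wd Z α η i j) (α k) :=
  MP_d9512b_co.corner (a := α i) (b := α j) (c := α k) (d := α l) (m := α m)
    (fun p q hp hq => by
      rw [show ({α j, α k} : Set V) = {α j, α k} from rfl] at hp hq ⊢
      exact C.one j hj _ _ _ hp hq)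
    (C.aZ i hi) (C.aZ l hl) (C.eZ i hi j hj hij) (C.eZ k hk l hl hkl)
    (C.inj i hi j hj hij) (C.inj i hi k hk hik) (C.inj i hi l hl hil)
    (C.eA k hk l hl hkl i hi).symm (C.inj j hj l hl hjl) (C.inj k hk l hl hkl)
    (C.eA i hi j hj hij k hk) (C.eA i hi j hj hij l hl) (C.eA i hi j hj hij l hl).symm
    (C.eA k hk l hl hkl i hi) (C.eA k hk l hl hkl j hj) hne s2 s1 a1 b1

/-- Crossing pairs have the same further vertex. -/
theorem Cfg.cross (C : Cfg G Z L α η) {i j k l m1 m2 m3 m4 : ℕ} (hi : i < L) (hj : j < L)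
    (hk : k < L) (hl : l < L) (hij : i ≠ j) (hik : i ≠ k) (hil : i ≠ l) (hjk : j ≠ k)
    (hjl : j ≠ l) (hkl : k ≠ l)
    (s1 : ¬ Rc G (Wd Z α η i j) (α k) (α l)) (s2 : ¬ Rc G (Wd Z α η k l) (α j) (α i))
    (a1 : Rc G (Wd Z α η i j) (α k) (α m1)) (b1 : Rc G (Wd Z α η k l) (α j) (α m1))
    (a2 : Rc G (Wd Z α η i j) (α k) (α m2)) (b2 : Rc G (Wd Z α η k l) (α i) (α m2))
    (a3 : Rc G (Wd Z α η i j) (α l) (α m3)) (b3 : Rc G (Wd Z α η k l) (α j) (α m3))
    (a4 : Rc G (Wd Z α η i j) (α l) (α m4)) (b4 : Rc G (Wd Z α η k l) (α i) (α m4)) :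
    η i j = η k l := by
  by_contra hne
  have c1 := C.corner hi hj hk hl hij hik hil hjk hjl hkl hne s1 s2 a1 b1
  have c2 := C.corner (i := j) (j := i) (k := k) (l := l) (m := m2) hj hi hk hl hij.symm hjk hjl
    hik hil hkl (by rwa [C.symm j i]) (by rwa [C.Wd_comm j i]) (fun h => s2 h.symm)
    (by rwa [C.Wd_comm j i]) b2
  have c3 := C.corner (i := i) (j := j) (k := l) (l := k) (m := m3) hi hj hl hk hij hil hik hjl
    hjk hkl.symm (by rwa [C.symm l k]) (fun h => s1 h.symm) (by rwa [C.Wd_comm l k]) a3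
    (by rwa [C.Wd_comm l k])
  have c4 := C.corner (i := j) (j := i) (k := l) (l := k) (m := m4) hj hi hl hk hij.symm hjl hjk
    hil hik hkl.symm (by rwa [C.symm j i, C.symm l k])
    (by
      rw [C.Wd_comm j i]
      exact fun h => s1 h.symm)
    (by
      rw [C.Wd_comm l k]
      exact fun h => s2 h.symm)
    (by rwa [C.Wd_comm j i]) (by rwa [C.Wd_comm l k])
  rw [C.symm j i, C.Wd_comm j i] at c2
  rw [C.symm l k, C.Wd_comm l k] at c3
  rw [C.symm j i, C.symm l k, C.Wd_comm l k, C.Wd_comm j i] at c4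
  have d1 : η k l ∈ cmp G (Wd Z α η i j) (α k) → η k l ∈ cmp G (Wd Z α η i j) (α l) → False :=
    fun h h' => s1 (Rc.trans h (Rc.symm h'))
  have d2 : η i j ∈ cmp G (Wd Z α η k l) (α j) → η i j ∈ cmp G (Wd Z α η k l) (α i) → False :=
    fun h h' => s2 (Rc.trans h (Rc.symm h'))
  tauto

/-- The separation pattern depends on the order only. -/
def Hom (G : SimpleGraph V) (Z : Set V) (L : ℕ) (α : ℕ → V) (η : ℕ → ℕ → V)
    (b0 b1 b2 b3 b4 b5 : Prop) : Prop :=
  ∀ i j k l, i < j → j < k → k < l → l < L →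
    (Rc G (Wd Z α η i j) (α k) (α l) ↔ b0) ∧ (Rc G (Wd Z α η i k) (α j) (α l) ↔ b1) ∧
    (Rc G (Wd Z α η i l) (α j) (α k) ↔ b2) ∧ (Rc G (Wd Z α η j k) (α i) (α l) ↔ b3) ∧
    (Rc G (Wd Z α η j l) (α i) (α k) ↔ b4) ∧ (Rc G (Wd Z α η k l) (α i) (α j) ↔ b5)

variable {b0 b1 b2 b3 b4 b5 : Prop}

theorem Hom.rr (H : Hom G Z L α η b0 b1 b2 b3 b4 b5) {i j k l : ℕ} (h1 : i < j) (h2 : j < k)
    (h3 : k < l) (h4 : l < L) : Rc G (Wd Z α η i j) (α k) (α l) ↔ b0 := (H i j k l h1 h2 h3 h4).1

theorem Hom.mr (H : Hom G Z L α η b0 b1 b2 b3 b4 b5) {i j k l : ℕ} (h1 : i < j) (h2 : j < k)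
    (h3 : k < l) (h4 : l < L) : Rc G (Wd Z α η i k) (α j) (α l) ↔ b1 :=
  (H i j k l h1 h2 h3 h4).2.1

theorem Hom.mm (H : Hom G Z L α η b0 b1 b2 b3 b4 b5) {i j k l : ℕ} (h1 : i < j) (h2 : j < k)
    (h3 : k < l) (h4 : l < L) : Rc G (Wd Z α η i l) (α j) (α k) ↔ b2 :=
  (H i j k l h1 h2 h3 h4).2.2.1

theorem Hom.lr (H : Hom G Z L α η b0 b1 b2 b3 b4 b5) {i j k l : ℕ} (h1 : i < j) (h2 : j < k)
    (h3 : k < l) (h4 : l < L) : Rc G (Wd Z α η j k) (α i) (α l) ↔ b3 :=
  (H i j k l h1 h2 h3 h4).2.2.2.1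

theorem Hom.lm (H : Hom G Z L α η b0 b1 b2 b3 b4 b5) {i j k l : ℕ} (h1 : i < j) (h2 : j < k)
    (h3 : k < l) (h4 : l < L) : Rc G (Wd Z α η j l) (α i) (α k) ↔ b4 :=
  (H i j k l h1 h2 h3 h4).2.2.2.2.1

theorem Hom.ll (H : Hom G Z L α η b0 b1 b2 b3 b4 b5) {i j k l : ℕ} (h1 : i < j) (h2 : j < k)
    (h3 : k < l) (h4 : l < L) : Rc G (Wd Z α η k l) (α i) (α j) ↔ b5 :=
  (H i j k l h1 h2 h3 h4).2.2.2.2.2

/-- The six classes. -/
theorem Cfg.classes (C : Cfg G Z L α η) (H : Hom G Z L α η b0 b1 b2 b3 b4 b5) (hL : 6 ≤ L) :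
    b0 ∧ b2 ∧ b3 ∧ b5 ∧ (b1 ↔ b4) := by
  have hb0 : b0 := by
    by_contra hb
    refine C.four (i := 0) (j := 1) (k := 2) (l := 3) (m := 4) (m' := 5) (by omega) (by omega)
      (by omega) (by omega) (by omega) (by omega) (by omega) (by omega) (by omega) (by omega)
      (by omega) (by omega) (by omega) (by omega) (by omega) (by omega) (by omega) (by omega)
      (by omega) (by omega) ?_ ?_ ?_ ?_ ?_ ?_
    · rwa [H.rr (by omega) (by omega) (by omega) (by omega)]
    · intro h
      exact hb ((H.rr (by omega) (by omega) (by omega) (by omega)).1 h.symm)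
    · intro h
      exact hb ((H.rr (by omega) (by omega) (by omega) (by omega)).1 h.symm)
    · intro h
      exact hb ((H.rr (by omega) (by omega) (by omega) (by omega)).1 h.symm)
    · intro h
      exact hb ((H.rr (by omega) (by omega) (by omega) (by omega)).1 h.symm)
    · rwa [H.rr (by omega) (by omega) (by omega) (by omega)]
  have hb5 : b5 := by
    by_contra hb
    refine C.four (i := 4) (j := 5) (k := 0) (l := 1) (m := 2) (m' := 3) (by omega) (by omega)
      (by omega) (by omega) (by omega) (by omega) (by omega) (by omega) (by omega) (by omega)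
      (by omega) (by omega) (by omega) (by omega) (by omega) (by omega) (by omega) (by omega)
      (by omega) (by omega) ?_ ?_ ?_ ?_ ?_ ?_
    · rwa [H.ll (by omega) (by omega) (by omega) (by omega)]
    · intro h
      exact hb ((H.ll (by omega) (by omega) (by omega) (by omega)).1 h.symm)
    · intro h
      exact hb ((H.ll (by omega) (by omega) (by omega) (by omega)).1 h.symm)
    · intro h
      exact hb ((H.ll (by omega) (by omega) (by omega) (by omega)).1 h.symm)
    · intro h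
      exact hb ((H.ll (by omega) (by omega) (by omega) (by omega)).1 h.symm)
    · rwa [H.ll (by omega) (by omega) (by omega) (by omega)]
  have hb2 : b2 := by
    by_contra hb
    refine C.four (i := 0) (j := 5) (k := 1) (l := 2) (m := 3) (m' := 4) (by omega) (by omega)
      (by omega) (by omega) (by omega) (by omega) (by omega) (by omega) (by omega) (by omega)
      (by omega) (by omega) (by omega) (by omega) (by omega) (by omega) (by omega) (by omega)
      (by omega) (by omega) ?_ ?_ ?_ ?_ ?_ ?_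
    · rwa [H.mm (by omega) (by omega) (by omega) (by omega)]
    · intro h
      exact hb ((H.mm (by omega) (by omega) (by omega) (by omega)).1 h.symm)
    · intro h
      exact hb ((H.mm (by omega) (by omega) (by omega) (by omega)).1 h.symm)
    · intro h
      exact hb ((H.mm (by omega) (by omega) (by omega) (by omega)).1 h.symm)
    · intro h
      exact hb ((H.mm (by omega) (by omega) (by omega) (by omega)).1 h.symm)
    · rwa [H.mm (by omega) (by omega) (by omega) (by omega)]
  -- left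
  have hL1 : b3 ∨ b4 := by
    by_contra hb
    push Not at hb
    refine C.left (o := 0) (i := 1) (j := 2) (k := 3) (l := 4) (by omega) (by omega)
      (by omega) (by omega) (by omega) (by omega) (by omega) (by omega) (by omega) (by omega)
      (by omega) (by omega) (by omega) (by omega) (by omega) ?_ ?_ ?_ ?_ ?_ ?_
    · rw [H.lr (by omega) (by omega) (by omega) (by omega)]
      exact hb.1
    · rw [H.lr (by omega) (by omega) (by omega) (by omega)]
      exact hb.1
    · rw [H.lm (by omega) (by omega) (by omega) (by omega)]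
      exact hb.2
    · rw [H.lr (by omega) (by omega) (by omega) (by omega)]
      exact hb.1
    · rw [H.lm (by omega) (by omega) (by omega) (by omega)]
      exact hb.2
    · rw [H.lm (by omega) (by omega) (by omega) (by omega)]
      exact hb.2
  have hR1 : b3 ∨ b1 := by
    by_contra hb
    push Not at hb
    refine C.left (o := 4) (i := 3) (j := 2) (k := 1) (l := 0) (by omega) (by omega)
      (by omega) (by omega) (by omega) (by omega) (by omega) (by omega) (by omega) (by omega)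
      (by omega) (by omega) (by omega) (by omega) (by omega) ?_ ?_ ?_ ?_ ?_ ?_
    · rw [C.Wd_comm]
      exact fun h => hb.1 ((H.lr (by omega) (by omega) (by omega) (by omega)).1 h.symm)
    · rw [C.Wd_comm]
      exact fun h => hb.1 ((H.lr (by omega) (by omega) (by omega) (by omega)).1 h.symm)
    · rw [C.Wd_comm]
      exact fun h => hb.2 ((H.mr (by omega) (by omega) (by omega) (by omega)).1 h.symm)
    · rw [C.Wd_comm]
      exact fun h => hb.1 ((H.lr (by omega) (by omega) (by omega) (by omega)).1 h.symm)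
    · rw [C.Wd_comm]
      exact fun h => hb.2 ((H.mr (by omega) (by omega) (by omega) (by omega)).1 h.symm)
    · rw [C.Wd_comm]
      exact fun h => hb.2 ((H.mr (by omega) (by omega) (by omega) (by omega)).1 h.symm)
  have e1 : Rc G (Wd Z α η 1 3) (α 0) (α 2) ↔ b4 :=
    H.lm (by omega) (by omega) (by omega) (by omega)
  have e2 : Rc G (Wd Z α η 1 3) (α 2) (α 4) ↔ b1 :=
    H.mr (by omega) (by omega) (by omega) (by omega)
  have e3 : Rc G (Wd Z α η 1 3) (α 0) (α 4) ↔ b3 :=
    H.lr (by omega) (by omega) (by omega) (by omega)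
  have hb3 : b3 := by
    by_contra hb
    exact hb (e3.1 ((e1.2 (hL1.resolve_left hb)).trans (e2.2 (hR1.resolve_left hb))))
  refine ⟨hb0, hb2, hb3, hb5, fun h => ?_, fun h => ?_⟩
  · exact e1.1 ((e3.2 hb3).trans (e2.2 h).symm)
  · exact e2.1 ((e1.2 h).symm.trans (e3.2 hb3))

/-- No pair separates the other elements. -/
theorem Cfg.cluster (C : Cfg G Z L α η) (H : Hom G Z L α η b0 b1 b2 b3 b4 b5) (hb0 : b0)
    (hb1 : b1) (hb2 : b2) (hb3 : b3) (hb4 : b4) (hb5 : b5) {i j k l : ℕ} (hi : i < L)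
    (hj : j < L) (hk : k < L) (hl : l < L) (hij : i ≠ j) (hki : k ≠ i) (hkj : k ≠ j)
    (hli : l ≠ i) (hlj : l ≠ j) : Rc G (Wd Z α η i j) (α k) (α l) := by
  have key : ∀ i j k l : ℕ, i < L → j < L → k < L → l < L → i < j → k < l → k ≠ i → k ≠ j →
      l ≠ i → l ≠ j → Rc G (Wd Z α η i j) (α k) (α l) := by
    intro i j k l hi hj hk hl hij hkl hki hkj hli hlj
    rcases lt_trichotomy l i with h1 | h1 | h1
    · exact (H.ll hkl h1 hij hj).2 hb5
    · exact absurd h1 hli
    · rcases lt_trichotomy k i with h2 | h2 | h2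
      · rcases lt_trichotomy l j with h3 | h3 | h3
        · exact (H.lm h2 h1 h3 hj).2 hb4
        · exact absurd h3 hlj
        · exact (H.lr h2 hij h3 hl).2 hb3
      · exact absurd h2 hki
      · rcases lt_trichotomy k j with h3 | h3 | h3
        · rcases lt_trichotomy l j with h4 | h4 | h4
          · exact (H.mm h2 hkl h4 hj).2 hb2
          · exact absurd h4 hlj
          · exact (H.mr h2 h3 h4 hl).2 hb1
        · exact absurd h3 hkj
        · exact (H.rr hij h3 hkl hl).2 hb0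
  have key2 : ∀ k l : ℕ, k < L → l < L → k ≠ l → ∀ i j, i < L → j < L → i < j → k ≠ i → k ≠ j →
      l ≠ i → l ≠ j → Rc G (Wd Z α η i j) (α k) (α l) := by
    intro k l hk hl hkl i j hi hj hij hki hkj hli hlj
    rcases lt_or_gt_of_ne hkl with h | h
    · exact key i j k l hi hj hk hl hij h hki hkj hli hlj
    · exact (key i j l k hi hj hl hk hij h hli hlj hki hkj).symm
  by_cases hkl : k = l
  · subst hkl
    exact Rc.refl (C.mem hi hj hk hij hki hkj)
  · rcases lt_or_gt_of_ne hij with h | h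
    · exact key2 k l hk hl hkl i j hi hj h hki hkj hli hlj
    · rw [C.Wd_comm]
      exact key2 k l hk hl hkl j i hj hi h hkj hki hlj hli

/-- The cyclic arrangement. -/
theorem Cfg.cyc (C : Cfg G Z L α η) (H : Hom G Z L α η b0 b1 b2 b3 b4 b5) (hb0 : b0)
    (hb1 : ¬ b1) (hb2 : b2) (hb3 : b3) (hb4 : ¬ b4) (hb5 : b5) {M : ℕ} (hM : 2 ≤ M)
    (hL : 4 * M + 4 ≤ L) : ∃ y, Cyc G Z M (fun i => α (4 * i)) y := by
  have hcr : ∀ i j k l : ℕ, i + 2 ≤ k → k + 2 ≤ j → j + 2 ≤ l → l + 1 < L → η i j = η k l := by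
    intro i j k l h1 h2 h3 h4
    refine C.cross (m1 := k + 1) (m2 := i + 1) (m3 := j + 1) (m4 := l + 1) (by omega) (by omega)
      (by omega) (by omega) (by omega) (by omega) (by omega) (by omega) (by omega) (by omega)
      ?_ ?_ ?_ ?_ ?_ ?_ ?_ ?_ ?_ ?_
    · rw [H.mr (by omega) (by omega) (by omega) (by omega)]
      exact hb1
    · exact fun h => hb4 ((H.lm (by omega) (by omega) (by omega) (by omega)).1 h.symm)
    · exact (H.mm (by omega) (by omega) (by omega) (by omega)).2 hb2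
    · exact ((H.mm (by omega) (by omega) (by omega) (by omega)).2 hb2).symm
    · exact ((H.mm (by omega) (by omega) (by omega) (by omega)).2 hb2).symm
    · exact (H.ll (by omega) (by omega) (by omega) (by omega)).2 hb5
    · exact ((H.rr (by omega) (by omega) (by omega) (by omega)).2 hb0).symm
    · exact (H.mm (by omega) (by omega) (by omega) (by omega)).2 hb2
    · exact (H.rr (by omega) (by omega) (by omega) (by omega)).2 hb0
    · exact (H.lr (by omega) (by omega) (by omega) (by omega)).2 hb3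
  have hy : ∀ i j : ℕ, i < j → j < M → η (4 * i) (4 * j) = η 0 (4 * M) := by
    intro i j h1 h2
    rw [hcr (4 * i) (4 * j) (4 * i + 2) (4 * M + 2) (by omega) (by omega) (by omega) (by omega)]
    exact (hcr 0 (4 * M) (4 * i + 2) (4 * M + 2) (by omega) (by omega) (by omega) (by omega)).symm
  have hW : ∀ i j : ℕ, i < j → j < M → Wd Z α η (4 * i) (4 * j) =
      W3 Z (α (4 * i)) (α (4 * j)) (η 0 (4 * M)) := by
    intro i j h1 h2
    unfold Wd
    rw [hy i j h1 h2]
  refine ⟨η 0 (4 * M), ?_, ?_, ?_, ?_, ?_, ?_, ?_, ?_, ?_, ?_, ?_⟩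
  · intro i hi
    exact C.aZ _ (by omega)
  · intro i hi j hj hij
    exact C.inj _ (by omega) _ (by omega) (by omega)
  · intro i hi z p q hp hq
    exact C.one _ (by omega) z p q hp hq
  · exact C.eZ _ (by omega) _ (by omega) (by omega)
  · intro i hi
    exact C.eA _ (by omega) _ (by omega) (by omega) _ (by omega)
  · intro i j k l h1 h2 h3 h4
    rw [← hW i j (by omega) h4]
    exact fun h => hb4 ((H.lm (by omega) (by omega) (by omega) (by omega)).1 h.symm)
  · intro i j k l h1 h2 h3 h4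
    rw [← hW i j (by omega) (by omega)]
    exact fun h => hb1 ((H.mr (by omega) (by omega) (by omega) (by omega)).1 h)
  · intro i j k l h1 h2 h3 h4
    rw [← hW i j (by omega) (by omega)]
    exact (H.mm (by omega) (by omega) (by omega) (by omega)).2 hb2
  · intro i j k l h1 h2 h3 h4
    rw [← hW i j (by omega) (by omega)]
    exact (H.ll (by omega) (by omega) (by omega) (by omega)).2 hb5
  · intro i j k l h1 h2 h3 h4
    rw [← hW i j (by omega) (by omega)]
    exact (H.rr (by omega) (by omega) (by omega) (by omega)).2 hb0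
  · intro i j k l h1 h2 h3 h4
    rw [← hW i j (by omega) (by omega)]
    exact (H.lr (by omega) (by omega) (by omega) (by omega)).2 hb3

/-- Homogeneous configurations. -/
theorem Cfg.dich (C : Cfg G Z L α η) (H : Hom G Z L α η b0 b1 b2 b3 b4 b5) {M : ℕ} (hM : 2 ≤ M)
    (hL : 4 * M + 4 ≤ L) :
    (∀ i j k l : ℕ, i < L → j < L → k < L → l < L → i ≠ j → k ≠ i → k ≠ j → l ≠ i → l ≠ j →
      Rc G (Wd Z α η i j) (α k) (α l)) ∨ ∃ y, Cyc G Z M (fun i => α (4 * i)) y := by
  obtain ⟨hb0, hb2, hb3, hb5, hb⟩ := C.classes H (by omega)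
  by_cases hb1 : b1
  · exact Or.inl fun i j k l hi hj hk hl hij h1 h2 h3 h4 =>
      C.cluster H hb0 hb1 hb2 hb3 (hb.1 hb1) hb5 hi hj hk hl hij h1 h2 h3 h4
  · exact Or.inr (C.cyc H hb0 hb1 hb2 hb3 (fun h => hb1 (hb.2 h)) hb5 hM hL)

end Pool.Agent.Lib.MP_d9512b_co
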