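import Pool.Agent.Lib.MP_d9512b_co.Hub
import Pool.Agent.Lib.MP_d9512b_co.H4.Defs

set_option autoImplicit false

/-!
A vertex of large degree in a 4-connected graph: the star whose complement is solid, if no pair
separates the other elements.
-/

namespace Pool.Agent.Lib.MP_d9512b_co

open Set

variable {V : Type} {G : SimpleGraph V} {w x z : V} {R Q W : Set V} {L : ℕ} {α : ℕ → V}
  {η : ℕ → ℕ → V} {U : ℕ → ℕ → Set V}

/-- Connected sets `U i j` with neighbours `α i`, `α j`, `η i j`, the elements of `R` and perhaps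
`w`. -/
structure Cl (G : SimpleGraph V) (w : V) (R : Set V) (L : ℕ) (α : ℕ → V) (η : ℕ → ℕ → V)
    (U : ℕ → ℕ → Set V) : Prop where
  wA : ∀ i < L, G.Adj w (α i)
  wR : ∀ r ∈ R, G.Adj w r
  inj : ∀ i < L, ∀ j < L, i ≠ j → α i ≠ α j
  aR : ∀ i < L, α i ∉ R
  con : ∀ i < L, ∀ j < L, i ≠ j → Con G (U i j)
  Uw : ∀ i < L, ∀ j < L, i ≠ j → w ∉ U i j
  UR : ∀ i < L, ∀ j < L, i ≠ j → ∀ z ∈ U i j, z ∉ R
  UA : ∀ i < L, ∀ j < L, i ≠ j → ∀ z ∈ U i j, ∀ k < L, z ≠ α k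
  nb : ∀ i < L, ∀ j < L, i ≠ j → ∀ z ∈ Nb G (U i j), z = w ∨ z ∈ R ∨ z = α i ∨ z = α j ∨
    z = η i j
  nI : ∀ i < L, ∀ j < L, i ≠ j → α i ∈ Nb G (U i j)
  nJ : ∀ i < L, ∀ j < L, i ≠ j → α j ∈ Nb G (U i j)
  nE : ∀ i < L, ∀ j < L, i ≠ j → η i j ∈ Nb G (U i j)
  nR : ∀ i < L, ∀ j < L, i ≠ j → ∀ r ∈ R, r ∈ Nb G (U i j)
  ew : ∀ i < L, ∀ j < L, i ≠ j → η i j ≠ w
  eR : ∀ i < L, ∀ j < L, i ≠ j → η i j ∉ R
  eA : ∀ i < L, ∀ j < L, i ≠ j → ∀ k < L, η i j ≠ α k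

/-- The other vertices. -/
def Qs (w : V) (R : Set V) (L : ℕ) (α : ℕ → V) : Set V :=
  {z | z ≠ w ∧ z ∉ R ∧ ∀ k < L, z ≠ α k}

theorem Cl.subQ (F : Cl G w R L α η U) {i j : ℕ} (hi : i < L) (hj : j < L) (hij : i ≠ j) :
    U i j ⊆ Qs w R L α := fun z hz =>
  ⟨fun e => F.Uw i hi j hj hij (e ▸ hz), F.UR i hi j hj hij z hz, F.UA i hi j hj hij z hz⟩

theorem Cl.etaQ (F : Cl G w R L α η U) {i j : ℕ} (hi : i < L) (hj : j < L) (hij : i ≠ j) :
    η i j ∈ Qs w R L α := ⟨F.ew i hi j hj hij, F.eR i hi j hj hij, F.eA i hi j hj hij⟩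

theorem Cl.q (F : Cl G w R L α η U) {i j : ℕ} (hi : i < L) (hj : j < L) (hij : i ≠ j)
    (hz : z ∈ Nb G (U i j)) (hzQ : z ∈ Qs w R L α) : z = η i j := by
  rcases F.nb i hi j hj hij z hz with h | h | h | h | h
  · exact absurd h hzQ.1
  · exact absurd h hzQ.2.1
  · exact absurd h (hzQ.2.2 i hi)
  · exact absurd h (hzQ.2.2 j hj)
  · exact h

theorem Cl.subset (F : Cl G w R L α η U) {i j : ℕ} (hi : i < L) (hj : j < L) (hij : i ≠ j)
    (hW : Con G W) (hWQ : W ⊆ Qs w R L α) (hyW : η i j ∉ W) (hz : z ∈ W) (hzU : z ∈ U i j) :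
    W ⊆ U i j := by
  intro c hc
  by_contra hcU
  obtain ⟨p, hp, q, hq, -, hqW, hpq⟩ := hW.exists_edge (X := U i j) hzU hz hcU hc
  exact hyW ((F.q hi hj hij ⟨hq, p, hp, hpq⟩ (hWQ hqW)) ▸ hqW)

/-- The element `α l` is not a neighbour of another set. -/
theorem Cl.far (F : Cl G w R L α η U) {i j l : ℕ} (hi : i < L) (hj : j < L) (hl : l < L)
    (hij : i ≠ j) (hli : l ≠ i) (hlj : l ≠ j) : α l ∉ Nb G (U i j) := by
  intro h
  rcases F.nb i hi j hj hij _ h with h | h | h | h | h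
  · exact (F.wA l hl).ne h.symm
  · exact F.aR l hl h
  · exact F.inj l hl i hi hli h
  · exact F.inj l hl j hj hlj h
  · exact F.eA i hi j hj hij l hl h.symm

theorem Cl.sep (F : Cl G w R L α η U) {c l l' : ℕ} (hc : c < L) (hl : l < L) (hl' : l' < L)
    (hcl : c ≠ l) (hcl' : c ≠ l') (hll : l ≠ l') (hy : η c l ∉ U c l') :
    (∀ z ∈ U c l, z ∉ U c l') ∧ η c l' ∉ U c l := by
  have hdis : ∀ z ∈ U c l, z ∉ U c l' := by
    intro z hz hz'
    have hsub := F.subset hc hl hcl (F.con c hc l' hl' hcl') (F.subQ hc hl' hcl') hy hz' hz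
    obtain ⟨-, e, he, hec⟩ := F.nJ c hc l' hl' hcl'
    exact F.far hc hl hl' hcl hcl'.symm hll.symm
      ⟨fun h => F.UA c hc l hl hcl _ h l' hl' rfl, e, hsub he, hec⟩
  refine ⟨hdis, fun h => ?_⟩
  obtain ⟨-, d, hd, hdy⟩ := F.nE c hc l' hl' hcl'
  have h3 : d ∈ Nb G (U c l) := ⟨fun h' => hdis d h' hd, η c l', h, hdy.symm⟩
  have h4 := F.q hc hl hcl h3 (F.subQ hc hl' hcl' hd)
  exact hy (h4 ▸ hd)

theorem Cl.dich (F : Cl G w R L α η U) {c l l' : ℕ} (hc : c < L) (hl : l < L) (hl' : l' < L)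
    (hcl : c ≠ l) (hcl' : c ≠ l') (hll : l ≠ l') :
    ((∀ z ∈ U c l, z ∉ U c l') ∧ η c l ∉ U c l' ∧ η c l' ∉ U c l) ∨
      (η c l ∈ U c l' ∧ η c l' ∈ U c l) := by
  by_cases h1 : η c l ∈ U c l'
  · by_cases h2 : η c l' ∈ U c l
    · exact Or.inr ⟨h1, h2⟩
    · exact absurd h1 (F.sep hc hl' hl hcl' hcl hll.symm h2).2
  · have := F.sep hc hl hl' hcl hcl' hll h1
    exact Or.inl ⟨this.1, h1, this.2⟩

theorem Cl.one (F : Cl G w R L α η U) {c l1 l2 l3 : ℕ} (hc : c < L) (h1 : l1 < L) (h2 : l2 < L)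
    (h3 : l3 < L) (c1 : c ≠ l1) (c2 : c ≠ l2) (c3 : c ≠ l3) (n13 : l1 ≠ l3) (n23 : l2 ≠ l3)
    (m12 : η c l1 ∈ U c l2) (m21 : η c l2 ∈ U c l1) (m13 : η c l1 ∈ U c l3) : False := by
  have hcl : ∀ q ∈ Nb G (U c l1 ∪ U c l2), q ∉ Qs w R L α := by
    rintro q ⟨hq, d, hd, hdq⟩ hqQ
    rcases hd with hd | hd
    · have := F.q hc h1 c1 ⟨fun h => hq (Or.inl h), d, hd, hdq⟩ hqQ
      exact hq (Or.inr (this ▸ m12))
    · have := F.q hc h2 c2 ⟨fun h => hq (Or.inr h), d, hd, hdq⟩ hqQ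
      exact hq (Or.inl (this ▸ m21))
  have hsub : U c l3 ⊆ U c l1 ∪ U c l2 := by
    intro d hd
    by_contra hdU
    obtain ⟨p, hp, q, hq, -, hqW, hpq⟩ := (F.con c hc l3 h3 c3).exists_edge
      (X := U c l1 ∪ U c l2) (x := η c l1) (Or.inr m12) m13 hdU hd
    exact hcl q ⟨hq, p, hp, hpq⟩ (F.subQ hc h3 c3 hqW)
  obtain ⟨-, d, hd, hdl⟩ := F.nJ c hc l3 h3 c3
  rcases hsub hd with hd | hd
  · exact F.far hc h1 h3 c1 c3.symm n13.symm
      ⟨fun h => F.UA c hc l1 h1 c1 _ h l3 h3 rfl, d, hd, hdl⟩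
  · exact F.far hc h2 h3 c2 c3.symm n23.symm
      ⟨fun h => F.UA c hc l2 h2 c2 _ h l3 h3 rfl, d, hd, hdl⟩

/-- Each vertex lies in at most two of the sets. -/
theorem Cl.count (F : Cl G w R L α η U) {c : ℕ} (hc : c < L) (x : V) :
    {l | l < L ∧ c ≠ l ∧ x ∈ U c l}.ncard ≤ 2 := by
  by_contra hcon
  have hfin : {l | l < L ∧ c ≠ l ∧ x ∈ U c l}.Finite :=
    (finite_lt_nat L).subset fun l hl => hl.1
  obtain ⟨l1, l2, l3, h1, h2, h3, n12, n13, n23⟩ := (two_lt_ncard_iff hfin).1 (by omega)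
  have m12 := (F.dich hc h1.1 h2.1 h1.2.1 h2.2.1 n12).resolve_left fun h =>
    h.1 x h1.2.2 h2.2.2
  have m13 := (F.dich hc h1.1 h3.1 h1.2.1 h3.2.1 n13).resolve_left fun h =>
    h.1 x h1.2.2 h3.2.2
  exact F.one hc h1.1 h2.1 h3.1 h1.2.1 h2.2.1 h3.2.1 n13 n23 m12.1 m12.2 m13.1

/-- The star. -/
theorem Cl.star [Finite V] (h : Cn4 G) (F : Cl G w R L α η U) {n : ℕ} (hn : 1 ≤ n)
    (hL : 2 * ((2 * (n + 1) + 1) * n) + 4 * n + 6 ≤ L) (hV : n + 3 ≤ Nat.card V) :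
    ∃ S, Good G n S := by
  classical
  have hL0 : 0 < L := by omega
  set y : ℕ → V := fun l => η 0 l with hy
  set X0 : Set ℕ := {l | l < L ∧ 0 ≠ l} with hX0
  have hX0f : X0.Finite := (finite_lt_nat L).subset fun l hl => hl.1
  have hLc : {l : ℕ | l < L}.ncard = L := by
    have : {l : ℕ | l < L} = (Finset.range L : Set ℕ) := by
      ext l
      simp
    rw [this, ncard_coe_finset, Finset.card_range]
  have hX0c : L ≤ X0.ncard + 1 := by
    have h1 : {l : ℕ | l < L} ⊆ insert 0 X0 := by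
      intro l hl
      by_cases h0 : l = 0
      · exact Or.inl h0
      · exact Or.inr ⟨hl, fun e => h0 e.symm⟩
    have h2 := ncard_le_ncard h1 (hX0f.insert 0)
    have h3 := ncard_insert_le 0 X0
    omega
  -- pairwise disjoint sets
  obtain ⟨T, hT, hTc, hTm⟩ := exists_indep (fun i j => y i ∈ U 0 j ∧ y j ∈ U 0 i)
    (fun i j h => ⟨h.2, h.1⟩) 1 ((2 * (n + 1) + 1) * n) X0 hX0f (by
      intro i hi
      by_contra hcon
      obtain ⟨j, k, hj, hk, hjk⟩ := (one_lt_ncard_iff (hX0f.subset fun j hj => hj.1)).1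
        (lt_of_not_ge hcon)
      exact F.one hL0 hi.1 hj.1.1 hk.1.1 hi.2 hj.1.2 hk.1.2 hk.2.1.symm hjk hj.2.2.1 hj.2.2.2
        hk.2.2.1)
    (by omega)
  have hTf : T.Finite := hX0f.subset hT
  have hdich : ∀ i ∈ T, ∀ j ∈ T, i ≠ j → (∀ z ∈ U 0 i, z ∉ U 0 j) ∧ y i ∉ U 0 j ∧
      y j ∉ U 0 i := by
    intro i hi j hj hij
    exact (F.dich hL0 (hT hi).1 (hT hj).1 (hT hi).2 (hT hj).2 hij).resolve_right
      (hTm i hi j hj hij)
  have hyU : ∀ i ∈ T, ∀ j ∈ T, y i ∉ U 0 j := by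
    intro i hi j hj
    by_cases hij : i = j
    · subst hij
      exact (F.nE 0 hL0 i (hT hi).1 (hT hi).2).1
    · exact (hdich i hi j hj hij).2.1
  set Q : Set V := Qs w R L α with hQ
  -- the indices of the star
  obtain ⟨I, hI, hIc, hIr⟩ := exists_indep
    (fun i j => ∃ W, Att G Q T y (n + 1) W ∧ y i ∈ W ∧ y j ∈ W)
    (fun i j ⟨W, h1, h2, h3⟩ => ⟨W, h1, h3, h2⟩) (2 * (n + 1)) (n - 1) T hTf (by
      intro i _
      refine (ncard_le_ncard ?_ (hTf.subset fun j hj => hj.1)).trans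
        (att_bound (G := G) (Q := Q) (n := n + 1) (yf := y) hTf (y i))
      rintro j ⟨hj, -, hW⟩
      exact ⟨hj, hW⟩)
    (by
      rw [hTc]
      exact Nat.mul_le_mul_left _ (by omega))
  have hIf : I.Finite := hTf.subset hI
  have hu : ∀ l, ∃ c, l ∈ T → c ∈ U 0 l ∧ G.Adj (α 0) c := by
    intro l
    by_cases hl : l ∈ T
    · obtain ⟨-, c, hc, hca⟩ := F.nI 0 hL0 l (hT hl).1 (hT hl).2
      exact ⟨c, fun _ => ⟨hc, hca.symm⟩⟩
    · exact ⟨α 0, fun h => absurd h hl⟩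
  choose u hu using hu
  have huU : ∀ l ∈ T, u l ∈ U 0 l := fun l hl => (hu l hl).1
  have huQ : ∀ l ∈ T, u l ∈ Q := fun l hl => F.subQ hL0 (hT hl).1 (hT hl).2 (huU l hl)
  have huinj : InjOn u I := by
    intro i hi j hj hij
    by_contra hne
    exact (hdich i (hI hi) j (hI hj) hne).1 (u i) (huU i (hI hi)) (hij ▸ huU j (hI hj))
  set X : Set V := insert (α 0) (u '' I) with hX
  have hXc : X.ncard = n := by
    rw [hX, ncard_insert_of_notMem _ (toFinite _), huinj.ncard_image, hIc]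
    · omega
    · rintro ⟨l, hl, e⟩
      exact (huQ l (hI hl)).2.2 0 hL0 e
  have hXA : ∀ k < L, α k ∈ X → k = 0 := by
    intro k hk hkX
    rcases hkX with e | ⟨l, hl, e⟩
    · by_contra hk0
      exact F.inj k hk 0 hL0 hk0 e
    · exact absurd e ((huQ l (hI hl)).2.2 k hk)
  have hwX : w ∉ X := by
    rintro (e | ⟨l, hl, e⟩)
    · exact (F.wA 0 hL0).ne e
    · exact (huQ l (hI hl)).1 e
  have hRX : ∀ r ∈ R, r ∉ X := by
    rintro r hr (e | ⟨l, hl, e⟩)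
    · exact F.aR 0 hL0 (e ▸ hr)
    · exact (huQ l (hI hl)).2.1 (e ▸ hr)
  have hXcon : Con G X := by
    apply con_star
    rintro _ ⟨l, hl, rfl⟩
    exact (hu l (hI hl)).2
  refine ⟨X, good_of_rc hXcon hXc hV ?_⟩
  intro y0 hy0
  obtain ⟨k0, hk0L, hk0, hk0y⟩ : ∃ k0 < L, k0 ≠ 0 ∧ α k0 ≠ y0 := by
    by_cases h1 : α 1 = y0
    · exact ⟨2, by omega, by omega, fun e => F.inj 1 (by omega) 2 (by omega) (by omega)
        (h1.trans e.symm)⟩
    · exact ⟨1, by omega, by omega, h1⟩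
  set a0 : V := α k0 with ha0
  have hmem : ∀ z, z ∉ X → z ≠ y0 → z ∈ (insert y0 X)ᶜ := by
    rintro z hz h2 (h3 | h3)
    · exact h2 h3
    · exact hz h3
  have hAX : ∀ k < L, k ≠ 0 → α k ≠ y0 → α k ∈ (insert y0 X)ᶜ := fun k hk hk0 h2 =>
    hmem _ (fun e => hk0 (hXA k hk e)) h2
  have ha0m : a0 ∈ (insert y0 X)ᶜ := hAX k0 hk0L hk0 hk0y
  -- the neighbours of `w` are in one component
  have hcover : ∀ k k', k < L → k' < L → ∃ l < L, l ≠ 0 ∧ l ≠ k ∧ l ≠ k' ∧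
      (∀ z ∈ U k l, z ∉ X) ∧ ∀ z ∈ U k' l, z ∉ X := by
    intro k k' hk hk'
    set S1 : Set ℕ := {0, k, k'} with hS1
    set S3 : Set ℕ := {l | ∃ x ∈ X, l ∈ {l | l < L ∧ k ≠ l ∧ x ∈ U k l}} with hS3
    set S4 : Set ℕ := {l | ∃ x ∈ X, l ∈ {l | l < L ∧ k' ≠ l ∧ x ∈ U k' l}} with hS4
    have h1 : S1.ncard ≤ 3 := by
      have h1 : ({0, k, k'} : Set ℕ).ncard ≤ ({k, k'} : Set ℕ).ncard + 1 :=
        ncard_insert_le 0 {k, k'}
      have h2 : ({k, k'} : Set ℕ).ncard ≤ ({k'} : Set ℕ).ncard + 1 := ncard_insert_le k {k'}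
      rw [ncard_singleton] at h2
      show ({0, k, k'} : Set ℕ).ncard ≤ 3
      omega
    have h3 : S3.ncard ≤ X.ncard * 2 := ncard_cover_nat (toFinite X) _ (finite_lt_nat L)
      (fun _ l hl => hl.1) 2 (fun x => F.count hk x)
    have h4 : S4.ncard ≤ X.ncard * 2 := ncard_cover_nat (toFinite X) _ (finite_lt_nat L)
      (fun _ l hl => hl.1) 2 (fun x => F.count hk' x)
    obtain ⟨l, hlL, hl⟩ : ∃ l, l < L ∧ l ∉ S1 ∪ (S3 ∪ S4) := by
      by_contra hcon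
      push Not at hcon
      have h5 : {l : ℕ | l < L} ⊆ S1 ∪ (S3 ∪ S4) := fun l hl => hcon l hl
      have hfin : (S1 ∪ (S3 ∪ S4)).Finite := by
        apply Set.Finite.subset ((toFinite S1).union (finite_lt_nat L))
        rintro l (hl | (⟨x, -, hl⟩ | ⟨x, -, hl⟩))
        · exact Or.inl hl
        · exact Or.inr hl.1
        · exact Or.inr hl.1
      have h6 := ncard_le_ncard h5 hfin
      have h7 := ncard_union_le S1 (S3 ∪ S4)
      have h9 := ncard_union_le S3 S4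
      rw [hLc] at h6
      rw [hXc] at h3 h4
      have h10 : n ≤ (2 * (n + 1) + 1) * n := Nat.le_mul_of_pos_left n (by omega)
      omega
    have hl0 : l ≠ 0 := fun e => hl (Or.inl (Or.inl e))
    have hlk : l ≠ k := fun e => hl (Or.inl (Or.inr (Or.inl e)))
    have hlk' : l ≠ k' := fun e => hl (Or.inl (Or.inr (Or.inr e)))
    exact ⟨l, hlL, hl0, hlk, hlk',
      fun z hz hzX => hl (Or.inr (Or.inl ⟨z, hzX, hlL, hlk.symm, hz⟩)),
      fun z hz hzX => hl (Or.inr (Or.inr ⟨z, hzX, hlL, hlk'.symm, hz⟩))⟩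
  have hconA : ∀ k < L, k ≠ 0 → α k ≠ y0 → Rc G (insert y0 X)ᶜ (α k) a0 := by
    intro k hk hk0' hky
    by_cases hyw : y0 = w
    · subst hyw
      obtain ⟨l, hlL, hl0, hlk, hlk', hX1, hX2⟩ := hcover k k0 hk hk0L
      have hly : α l ≠ y0 := (F.wA l hlL).ne'
      have hlm := hAX l hlL hl0 hly
      exact (nb_link (F.con k hk l hlL hlk.symm) (F.nI k hk l hlL hlk.symm)
        (F.nJ k hk l hlL hlk.symm) (fun z hz => hmem z (hX1 z hz)
          (fun e => F.Uw k hk l hlL hlk.symm (e ▸ hz))) (hAX k hk hk0' hky) hlm).trans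
        (nb_link (F.con k0 hk0L l hlL hlk'.symm) (F.nJ k0 hk0L l hlL hlk'.symm)
        (F.nI k0 hk0L l hlL hlk'.symm) (fun z hz => hmem z (hX2 z hz)
          (fun e => F.Uw k0 hk0L l hlL hlk'.symm (e ▸ hz))) hlm ha0m)
    · have hwX' : w ∈ (insert y0 X)ᶜ := hmem w hwX (fun e => hyw e.symm)
      exact (Rc.adj (hAX k hk hk0' hky) hwX' (F.wA k hk).symm).tail (F.wA k0 hk0L) ha0m
  have hconR : ∀ r ∈ R, r ≠ y0 → Rc G (insert y0 X)ᶜ r a0 := by
    intro r hr hry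
    have hrm := hmem r (hRX r hr) hry
    by_cases hyw : y0 = w
    · subst hyw
      obtain ⟨l, hlL, hl0, hlk, hlk', hX1, hX2⟩ := hcover k0 k0 hk0L hk0L
      exact nb_link (F.con k0 hk0L l hlL hlk.symm) (F.nR k0 hk0L l hlL hlk.symm r hr)
        (F.nI k0 hk0L l hlL hlk.symm) (fun z hz => hmem z (hX1 z hz)
          (fun e => F.Uw k0 hk0L l hlL hlk.symm (e ▸ hz))) hrm ha0m
    · have hwX' : w ∈ (insert y0 X)ᶜ := hmem w hwX (fun e => hyw e.symm)
      exact (Rc.adj hrm hwX' (F.wR r hr).symm).tail (F.wA k0 hk0L) ha0m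
  -- all vertices are in this component
  have hmain : ∀ z, z ∉ insert y0 X → Rc G (insert y0 X)ᶜ z a0 := by
    intro z hz
    by_contra hcon
    set U0 : Set V := cmp G (insert y0 X)ᶜ z with hU0
    have hzU : z ∈ U0 := mem_cmp_self hz
    have hU0c : Con G U0 := con_cmp hz
    have hU0X : ∀ c ∈ U0, c ∉ insert y0 X := fun c hc => cmp_subset hc
    have hU0Q : ∀ c ∈ U0, c ∈ Q := by
      intro c hc
      have h1 := hU0X c hc
      refine ⟨?_, ?_, ?_⟩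
      · rintro rfl
        exact hcon (cmp_closed hc ha0m (F.wA k0 hk0L))
      · intro hcR
        exact hcon (Rc.trans hc (hconR c hcR (fun e => h1 (Or.inl e))))
      · rintro k hk rfl
        refine hcon (Rc.trans hc (hconA k hk ?_ (fun e => h1 (Or.inl e))))
        rintro rfl
        exact h1 (Or.inr (Or.inl rfl))
    have hNb : Nb G U0 ⊆ insert y0 X := by
      intro c hc
      by_contra hcX
      exact notMem_of_mem_nb_cmp hc hcX
    have h5 : 4 ≤ (Nb G U0).ncard := h.le_nb hzU (z := a0) hcon (fun e => ha0m (hNb e))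
    set I' : Set ℕ := {l | l ∈ I ∧ u l ∈ Nb G U0} with hI'
    have hI'f : I'.Finite := hIf.subset fun l hl => hl.1
    have hI'c : 2 ≤ I'.ncard := by
      have h1 : Nb G U0 ⊆ {y0, α 0} ∪ u '' I' := by
        intro c hc
        rcases hNb hc with e | (e | ⟨l, hl, e⟩)
        · exact Or.inl (Or.inl e)
        · exact Or.inl (Or.inr e)
        · exact Or.inr ⟨l, ⟨hl, e ▸ hc⟩, e⟩
      have h2 := ncard_le_ncard h1 (toFinite _)
      have h3 := ncard_union_le {y0, α 0} (u '' I')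
      have h4 : ({y0, α 0} : Set V).ncard ≤ 2 := by
        have := ncard_insert_le y0 {α 0}
        rw [ncard_singleton] at this
        exact this
      have h6 := ncard_image_le (f := u) hI'f
      omega
    have hstep : ∀ l ∈ I', y l ∈ U0 := by
      intro l hl
      by_contra hyl
      have hlT : l ∈ T := hI hl.1
      obtain ⟨-, c, hc, hcu⟩ := hl.2
      have hcU : c ∈ U 0 l := by
        by_contra hcU
        have h1 := F.q hL0 (hT hlT).1 (hT hlT).2 ⟨hcU, u l, huU l hlT, hcu.symm⟩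
          (hU0Q c hc)
        exact hyl (show η 0 l ∈ U0 from h1 ▸ hc)
      have hsub := F.subset hL0 (hT hlT).1 (hT hlT).2 hU0c (fun v hv => hU0Q v hv) hyl hc hcU
      obtain ⟨l', hl', hne⟩ : ∃ l' ∈ I', l' ≠ l := by
        by_contra hcon'
        push Not at hcon'
        have h1 := ncard_le_ncard (show I' ⊆ {l} from hcon') (toFinite _)
        rw [ncard_singleton] at h1
        omega
      have hl'T : l' ∈ T := hI hl'.1
      obtain ⟨-, c', hc', hcu'⟩ := hl'.2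
      have h1 : u l' ∉ U 0 l := fun e => (hdich l' hl'T l hlT hne).1 _ (huU l' hl'T) e
      have h2 := F.q hL0 (hT hlT).1 (hT hlT).2 ⟨h1, c', hsub hc', hcu'⟩ (huQ l' hl'T)
      exact hyU l hlT l' hl'T (show η 0 l ∈ U 0 l' from h2 ▸ huU l' hl'T)
    -- the attached set
    set W : Set V := U0 ∪ {v | ∃ l ∈ I, y l ∈ U0 ∧ v ∈ U 0 l} with hW
    have hWcon : Con G W := by
      have h1 : ∀ c ∈ W, Rc G W c z := by
        rintro c (hc | ⟨l, hl, hyl, hc⟩)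
        · exact hU0c.rc subset_union_left hc hzU
        · have hlT := hI hl
          obtain ⟨-, e, he, hey⟩ := F.nE 0 hL0 l (hT hlT).1 (hT hlT).2
          have hUW : U 0 l ⊆ W := fun v hv => Or.inr ⟨l, hl, hyl, hv⟩
          have h2 : Rc G W c e := (F.con 0 hL0 l (hT hlT).1 (hT hlT).2).rc hUW hc he
          exact (h2.tail hey (Or.inl hyl)).trans (hU0c.rc subset_union_left hyl hzU)
      exact ⟨⟨z, Or.inl hzU⟩, fun p hp q hq => (h1 p hp).trans (h1 q hq).symm⟩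
    have hWQ : W ⊆ Q := by
      rintro c (hc | ⟨l, hl, -, hc⟩)
      · exact hU0Q c hc
      · exact F.subQ hL0 (hT (hI hl)).1 (hT (hI hl)).2 hc
    have hWN : ∀ q ∈ Nb G W, q ∈ Q → q = y0 := by
      rintro q ⟨hq, c, hc, hcq⟩ hqQ
      rcases hc with hc | ⟨l, hl, hyl, hc⟩
      · have h1 : q ∈ Nb G U0 := ⟨fun e => hq (Or.inl e), c, hc, hcq⟩
        rcases hNb h1 with e | (e | ⟨l, hl, e⟩)
        · exact e
        · exact absurd e (hqQ.2.2 0 hL0)
        · exfalso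
          have h2 : l ∈ I' := ⟨hl, e ▸ h1⟩
          exact hq (Or.inr ⟨l, hl, hstep l h2, e ▸ huU l (hI hl)⟩)
      · exfalso
        have h1 : q ∈ Nb G (U 0 l) := ⟨fun e => hq (Or.inr ⟨l, hl, hyl, e⟩), c, hc, hcq⟩
        have h2 := F.q hL0 (hT (hI hl)).1 (hT (hI hl)).2 h1 hqQ
        exact hq (Or.inl (h2 ▸ hyl))
    have hWT : {j | j ∈ T ∧ y j ∈ W}.ncard ≤ n + 1 := by
      have h1 : {j | j ∈ T ∧ y j ∈ W} ⊆ (I ∪ {j | j ∈ T ∧ y0 ∈ U 0 j}) ∪
          {j | j ∈ T ∧ α j = y0} := by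
        rintro j ⟨hjT, hj⟩
        by_contra hno
        have hjI : j ∉ I := fun e => hno (Or.inl (Or.inl e))
        have hjy : y0 ∉ U 0 j := fun e => hno (Or.inl (Or.inr ⟨hjT, e⟩))
        have hja : α j ≠ y0 := fun e => hno (Or.inr ⟨hjT, e⟩)
        have hyj : y j ∈ U0 := by
          rcases hj with hj | ⟨l, hl, -, hj⟩
          · exact hj
          · exact absurd hj (hyU j hjT l (hI hl))
        have hUX : U 0 j ⊆ (insert y0 X)ᶜ := by
          rintro v hv (e | (e | ⟨l, hl, e⟩))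
          · exact hjy (e ▸ hv)
          · exact F.UA 0 hL0 j (hT hjT).1 (hT hjT).2 v hv 0 hL0 e
          · have hlj : l ≠ j := by
              rintro rfl
              exact hjI hl
            exact (hdich l (hI hl) j hjT hlj).1 (u l) (huU l (hI hl)) (e ▸ hv)
        obtain ⟨-, c, hc, hcy⟩ := F.nE 0 hL0 j (hT hjT).1 (hT hjT).2
        have hcU : c ∈ U0 := cmp_closed hyj (hUX hc) hcy.symm
        have hsub : U 0 j ⊆ U0 := (F.con 0 hL0 j (hT hjT).1 (hT hjT).2).subset_cmp hUX hc hcU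
        obtain ⟨-, c', hc', hcd⟩ := F.nJ 0 hL0 j (hT hjT).1 (hT hjT).2
        exact (hU0Q _ (cmp_closed (hsub hc') (hAX j (hT hjT).1 (hT hjT).2.symm hja) hcd)).2.2 j
          (hT hjT).1 rfl
      have h2 : {j | j ∈ T ∧ y0 ∈ U 0 j}.ncard ≤ 1 := by
        by_contra hc
        obtain ⟨i, j, hi, hj, hij⟩ := (one_lt_ncard_iff (hTf.subset fun j hj => hj.1)).1
          (lt_of_not_ge hc)
        exact (hdich i hi.1 j hj.1 hij).1 y0 hi.2 hj.2
      have h2' : {j | j ∈ T ∧ α j = y0}.ncard ≤ 1 := by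
        by_contra hc
        obtain ⟨i, j, hi, hj, hij⟩ := (one_lt_ncard_iff (hTf.subset fun j hj => hj.1)).1
          (lt_of_not_ge hc)
        exact F.inj i (hT hi.1).1 j (hT hj.1).1 hij (hi.2.trans hj.2.symm)
      have h3 := ncard_le_ncard h1 ((hIf.union (hTf.subset fun j hj => hj.1)).union
        (hTf.subset fun j hj => hj.1))
      have h4 := ncard_union_le (I ∪ {j | j ∈ T ∧ y0 ∈ U 0 j}) {j | j ∈ T ∧ α j = y0}
      have h6 := ncard_union_le I {j | j ∈ T ∧ y0 ∈ U 0 j}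
      omega
    obtain ⟨i, j, hi, hj, hij⟩ := (one_lt_ncard_iff hI'f).1 (by omega)
    exact hIr i hi.1 j hj.1 hij ⟨W, ⟨hWcon, hWQ, ⟨y0, hWN⟩, hWT⟩, Or.inl (hstep i hi),
      Or.inl (hstep j hj)⟩
  intro p q hp hq
  exact (hmain p hp).trans (hmain q hq).symm

end Pool.Agent.Lib.MP_d9512b_co
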