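import Pool.Agent.Lib.MP_d9512b_co.H4.Ram
import Pool.Agent.Lib.MP_d9512b_co.H4.Star
import Pool.Agent.Lib.MP_d9512b_co.H4.Pat2
import Pool.Agent.Lib.MP_d9512b_co.H4.LemC2

set_option autoImplicit false

/-!
4-connected graphs with a vertex of large degree have good sets.
-/

namespace Pool.Agent.Lib.MP_d9512b_co

open Set

/-- Sets which are not bad. -/
theorem rc_of_not_bad {V : Type} [Finite V] {G : SimpleGraph V} {w : V} {B : Set V}
    (h : ¬ Bad G w B) (hc : B.ncard + 4 ≤ Nat.card V) (z p q : V) (hp : p ≠ w ∧ p ∉ B ∧ p ≠ z)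
    (hq : q ≠ w ∧ q ∉ B ∧ q ≠ z) : Rc G {x | x ≠ w ∧ x ∉ B ∧ x ≠ z} p q := by
  unfold Bad at h
  push Not at h
  by_cases hz : z = w ∨ z ∈ B
  · obtain ⟨y, hy⟩ : ∃ y, y ∉ insert w (insert p (insert q B)) := by
      by_contra hcon
      push Not at hcon
      have h1 : (univ : Set V) ⊆ insert w (insert p (insert q B)) := fun v _ => hcon v
      have h2 := ncard_le_ncard h1 (toFinite _)
      rw [ncard_univ] at h2
      have h3 := ncard_insert_le w (insert p (insert q B))
      have h4 := ncard_insert_le p (insert q B)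
      have h5 := ncard_insert_le q B
      omega
    simp only [mem_insert_iff, not_or] at hy
    refine (h y hy.1 hy.2.2.2 p q (notMem_Zs.2 ⟨hp.1, Ne.symm hy.2.1, hp.2.1⟩)
      (notMem_Zs.2 ⟨hq.1, Ne.symm hy.2.2.1, hq.2.1⟩)).mono ?_
    intro x hx
    have hx' := notMem_Zs.1 hx
    refine ⟨hx'.1, hx'.2.2, ?_⟩
    rcases hz with hz | hz
    · exact fun e => hx'.1 (e.trans hz)
    · exact fun e => hx'.2.2 (e ▸ hz)
  · push Not at hz
    refine (h z hz.1 hz.2 p q (notMem_Zs.2 ⟨hp.1, hp.2.2, hp.2.1⟩)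
      (notMem_Zs.2 ⟨hq.1, hq.2.2, hq.2.1⟩)).mono ?_
    intro x hx
    have hx' := notMem_Zs.1 hx
    exact ⟨hx'.1, hx'.2.2, hx'.2.1⟩

/-- 4-connected graphs with a vertex of large degree have good sets. -/
theorem hub4 (n : ℕ) (hn : 1 ≤ n) : ∃ N : ℕ, ∀ (V : Type) [Finite V] (G : SimpleGraph V),
    Cn4 G → ∀ w : V, N ≤ (Nb G {w}).ncard → ∃ S, Good G n S := by
  classical
  set M : ℕ := (n + 1) * n + 12 with hM
  set Lc : ℕ := 4 * M + 4 + (2 * ((2 * (n + 1) + 1) * n) + 4 * n + 6) with hLc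
  obtain ⟨N2, hN2⟩ := ram2 (Lc + 1)
  obtain ⟨N1, hN1⟩ := ram1 n (n + N2)
  refine ⟨N1 + n + 3, fun V _ G h w hdeg => ?_⟩
  obtain ⟨a, haw, hainj, hhom⟩ := hN1 V G w (by omega)
  have hcardV : N1 + n + 3 + 1 ≤ Nat.card V := by
    have h1 : (insert w (Nb G {w})).ncard ≤ Nat.card V := by
      rw [← ncard_univ]
      exact ncard_le_ncard (subset_univ _) (toFinite _)
    rw [ncard_insert_of_notMem (fun e => e.1 rfl) (toFinite _)] at h1
    omega
  have hV : n + 3 ≤ Nat.card V := by omega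
  set A : Set V := {v | ∃ i < n + N2, v = a i} with hA
  have hAw : ∀ z ∈ A, G.Adj w z := by
    rintro _ ⟨i, hi, rfl⟩
    obtain ⟨-, c, hc, hcz⟩ := haw i hi
    rw [mem_singleton_iff] at hc
    exact hc ▸ hcz
  have hwA : w ∉ A := fun e => (hAw w e).ne rfl
  by_cases hgood : ∃ B ⊆ A, B.ncard = n - 1 ∧ ¬ Bad G w B
  · obtain ⟨B, hB, hBc, hbad⟩ := hgood
    have hwB : w ∉ B := fun e => hwA (hB e)
    refine ⟨insert w B, good_of_rc (con_star fun z hz => hAw z (hB hz)) ?_ hV ?_⟩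
    · rw [ncard_insert_of_notMem hwB (toFinite _), hBc]
      omega
    · intro y hy p q hp hq
      unfold Bad at hbad
      push Not at hbad
      have hsub : ∀ z, z ∉ Zs w y B ↔ z ∉ insert y (insert w B) := by
        intro z
        rw [notMem_Zs, mem_insert_iff, mem_insert_iff]
        tauto
      refine (hbad y (fun e => hy (Or.inl e)) (fun e => hy (Or.inr e)) p q ((hsub p).2 hp)
        ((hsub q).2 hq)).mono fun z hz => (hsub z).1 hz
  push Not at hgood
  have hex : ∃ b, ∀ B ⊆ A, B.ncard = b → Bad G w B := ⟨n - 1, hgood⟩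
  obtain ⟨b, hbB, hbn, hbmin⟩ : ∃ b, (∀ B ⊆ A, B.ncard = b → Bad G w B) ∧ b ≤ n - 1 ∧
      ∀ c < b, ∀ B ⊆ A, B.ncard = c → ¬ Bad G w B := by
    refine ⟨Nat.find hex, Nat.find_spec hex, Nat.find_min' hex hgood, ?_⟩
    intro c hc B hB hBc hbad
    refine Nat.find_min hex hc ?_
    intro B' hB' hBc'
    have hcn : c ≤ n := by
      have := Nat.find_min' hex hgood
      omega
    exact hhom B hB B' hB' (hBc.trans hBc'.symm) (by omega) hbad
  have hcardA : ∀ c ≤ n + N2, ∃ B ⊆ A, B.ncard = c := by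
    intro c hc
    have h1 : (a '' (Finset.range c : Set ℕ)).ncard = c := by
      rw [InjOn.ncard_image, ncard_coe_finset, Finset.card_range]
      intro i hi j hj hij
      rw [Finset.mem_coe, Finset.mem_range] at hi hj
      by_contra hne
      exact hainj i (by omega) j (by omega) hne hij
    refine ⟨a '' (Finset.range c : Set ℕ), ?_, h1⟩
    rintro _ ⟨i, hi, rfl⟩
    rw [Finset.mem_coe, Finset.mem_range] at hi
    exact ⟨i, by omega, rfl⟩
  have hb2 : 2 ≤ b := by
    by_contra hcon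
    obtain ⟨B, hB, hBc⟩ := hcardA b (by omega)
    obtain ⟨y, hyw, hyB, p, q, hp, hq, hpq⟩ := hbB B hB hBc
    refine hpq (h.2 _ ?_ p q hp hq)
    have h1 := ncard_insert_le w (insert y B)
    have h2 := ncard_insert_le y B
    unfold Zs
    omega
  -- the fixed part
  set R : Set V := a '' (Finset.range (b - 2) : Set ℕ) with hR
  have hRc : R.ncard = b - 2 := by
    rw [hR, InjOn.ncard_image, ncard_coe_finset, Finset.card_range]
    intro i hi j hj hij
    rw [Finset.mem_coe, Finset.mem_range] at hi hj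
    by_contra hne
    exact hainj i (by omega) j (by omega) hne hij
  have hRA : R ⊆ A := by
    rintro _ ⟨i, hi, rfl⟩
    rw [Finset.mem_coe, Finset.mem_range] at hi
    exact ⟨i, by omega, rfl⟩
  have hwR : w ∉ R := fun e => hwA (hRA e)
  set α : ℕ → V := fun i => a (b - 2 + i) with hα
  have hαA : ∀ i < N2, α i ∈ A := fun i hi => ⟨b - 2 + i, by omega, rfl⟩
  have hαinj : ∀ i < N2, ∀ j < N2, i ≠ j → α i ≠ α j := fun i hi j hj hij =>
    hainj _ (by omega) _ (by omega) (by omega)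
  have hαR : ∀ i < N2, α i ∉ R := by
    rintro i hi ⟨j, hj, e⟩
    rw [Finset.mem_coe, Finset.mem_range] at hj
    exact hainj j (by omega) (b - 2 + i) (by omega) (by omega) e
  set Z : Set V := insert w R with hZ
  have hZx : ∀ x, x ∉ Z ↔ x ≠ w ∧ x ∉ R := fun x => by
    rw [hZ, mem_insert_iff, not_or]
  -- one element
  have hone : ∀ i < N2, ∀ z p q, p ∈ Ux Z {α i, z} → q ∈ Ux Z {α i, z} →
      Rc G (Ux Z {α i, z}) p q := by
    intro i hi z p q hp hq
    have h1 : (insert (α i) R).ncard = b - 1 := by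
      rw [ncard_insert_of_notMem (hαR i hi) (toFinite _), hRc]
      omega
    have h2 := hbmin (b - 1) (by omega) (insert (α i) R) (insert_subset (hαA i hi) hRA) h1
    have hx : ∀ x, x ∈ Ux Z {α i, z} → x ≠ w ∧ x ∉ insert (α i) R ∧ x ≠ z := by
      intro x hx
      have h3 := mem_Ux2.1 hx
      have h4 := (hZx x).1 h3.1
      refine ⟨h4.1, ?_, h3.2.2⟩
      rintro (e | e)
      · exact h3.2.1 e
      · exact h4.2 e
    refine (rc_of_not_bad h2 (by omega) z p q (hx p hp) (hx q hq)).mono ?_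
    rintro x ⟨h5, h6, h7⟩
    exact mem_Ux2.2 ⟨(hZx x).2 ⟨h5, fun e => h6 (Or.inr e)⟩, fun e => h6 (Or.inl e), h7⟩
  -- two elements without an element of `R`
  have htwo : ∀ r ∈ R, ∀ i < N2, ∀ j < N2, i ≠ j → ∀ z p q, p ∈ Ux (Z \ {r}) {α i, α j, z} →
      q ∈ Ux (Z \ {r}) {α i, α j, z} → Rc G (Ux (Z \ {r}) {α i, α j, z}) p q := by
    intro r hr i hi j hj hij z p q hp hq
    have hrw : r ≠ w := fun e => hwR (e ▸ hr)
    have hb0 : 0 < R.ncard := (ncard_pos (toFinite _)).2 ⟨r, hr⟩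
    have h0 : (R \ {r}).ncard = b - 3 := by
      rw [ncard_sdiff_singleton_of_mem hr, hRc]
      omega
    have h1 : (insert (α i) (insert (α j) (R \ {r}))).ncard = b - 1 := by
      rw [ncard_insert_of_notMem _ (toFinite _), ncard_insert_of_notMem _ (toFinite _), h0]
      · omega
      · exact fun e => hαR j hj e.1
      · rintro (e | e)
        · exact hαinj i hi j hj hij e
        · exact hαR i hi e.1
    have h2 := hbmin (b - 1) (by omega) _ (insert_subset (hαA i hi) (insert_subset (hαA j hj)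
      (sdiff_subset.trans hRA))) h1
    have hZr : ∀ x, x ∉ Z \ {r} ↔ x ≠ w ∧ x ∉ R \ {r} := by
      intro x
      constructor
      · intro hx
        refine ⟨?_, fun e => hx ⟨Or.inr e.1, e.2⟩⟩
        rintro rfl
        exact hx ⟨Or.inl rfl, fun e => hrw e.symm⟩
      · rintro ⟨h3, h4⟩ ⟨h5 | h5, h6⟩
        · exact h3 h5
        · exact h4 ⟨h5, h6⟩
    have hx : ∀ x, x ∈ Ux (Z \ {r}) {α i, α j, z} → x ≠ w ∧
        x ∉ insert (α i) (insert (α j) (R \ {r})) ∧ x ≠ z := by
      intro x hx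
      have h3 := mem_Ux3.1 hx
      have h4 := (hZr x).1 h3.1
      refine ⟨h4.1, ?_, h3.2.2.2⟩
      rintro (e | e | e)
      · exact h3.2.1 e
      · exact h3.2.2.1 e
      · exact h4.2 e
    refine (rc_of_not_bad h2 (by omega) z p q (hx p hp) (hx q hq)).mono ?_
    rintro x ⟨h5, h6, h7⟩
    exact mem_Ux3.2 ⟨(hZr x).2 ⟨h5, fun e => h6 (Or.inr (Or.inr e))⟩, fun e => h6 (Or.inl e),
      fun e => h6 (Or.inr (Or.inl e)), h7⟩
  -- the further vertices
  have hyB : ∀ B : Set V, ∃ y, Bad G w B → y ≠ w ∧ y ∉ B ∧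
      ∃ p q, p ∉ Zs w y B ∧ q ∉ Zs w y B ∧ ¬ Rc G (Zs w y B)ᶜ p q := by
    intro B
    by_cases hB : Bad G w B
    · obtain ⟨y, hy⟩ := hB
      exact ⟨y, fun _ => hy⟩
    · exact ⟨w, fun h => absurd h hB⟩
  choose yB hyB using hyB
  set Bs : ℕ → ℕ → Set V := fun i j => insert (α i) (insert (α j) R) with hBs
  have hBsc : ∀ i < N2, ∀ j < N2, i ≠ j → Bad G w (Bs i j) := by
    intro i hi j hj hij
    refine hbB _ (insert_subset (hαA i hi) (insert_subset (hαA j hj) hRA)) ?_
    rw [ncard_insert_of_notMem _ (toFinite _), ncard_insert_of_notMem _ (toFinite _), hRc]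
    · omega
    · exact hαR j hj
    · rintro (e | e)
      · exact hαinj i hi j hj hij e
      · exact hαR i hi e
  set η : ℕ → ℕ → V := fun i j => yB (Bs i j) with hη
  have hηs : ∀ i j, η i j = η j i := by
    intro i j
    show yB (Bs i j) = yB (Bs j i)
    have : Bs i j = Bs j i := insert_comm _ _ _
    rw [this]
  -- the homogeneous subsequence
  obtain ⟨J, hJ, hJN, hJf⟩ := hN2 (fun i j k l => ![
    Rc G (Wd Z α η i j) (α k) (α l), Rc G (Wd Z α η i k) (α j) (α l),
    Rc G (Wd Z α η i l) (α j) (α k), Rc G (Wd Z α η j k) (α i) (α l),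
    Rc G (Wd Z α η j l) (α i) (α k), Rc G (Wd Z α η k l) (α i) (α j),
    η i j = α k, η i k = α j, η j k = α i])
  set α' : ℕ → V := fun i => α (J i) with hα'
  set η' : ℕ → ℕ → V := fun i j => η (J i) (J j) with hη'
  have hJN' : ∀ i < Lc + 1, J i < N2 := hJN
  have hJne : ∀ i j, i ≠ j → J i ≠ J j := fun i j hij e => hij (hJ.injective e)
  have hf : ∀ i j k l i' j' k' l' : ℕ, i < j → j < k → k < l → l < Lc + 1 → i' < j' → j' < k' →
      k' < l' → l' < Lc + 1 → ∀ t : Fin 9, (![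
    Rc G (Wd Z α' η' i j) (α' k) (α' l), Rc G (Wd Z α' η' i k) (α' j) (α' l),
    Rc G (Wd Z α' η' i l) (α' j) (α' k), Rc G (Wd Z α' η' j k) (α' i) (α' l),
    Rc G (Wd Z α' η' j l) (α' i) (α' k), Rc G (Wd Z α' η' k l) (α' i) (α' j),
    η' i j = α' k, η' i k = α' j, η' j k = α' i] : Fin 9 → Prop) t = (![
    Rc G (Wd Z α' η' i' j') (α' k') (α' l'), Rc G (Wd Z α' η' i' k') (α' j') (α' l'),
    Rc G (Wd Z α' η' i' l') (α' j') (α' k'), Rc G (Wd Z α' η' j' k') (α' i') (α' l'),
    Rc G (Wd Z α' η' j' l') (α' i') (α' k'), Rc G (Wd Z α' η' k' l') (α' i') (α' j'),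
    η' i' j' = α' k', η' i' k' = α' j', η' j' k' = α' i'] : Fin 9 → Prop) t := by
    intro i j k l i' j' k' l' h1 h2 h3 h4 h5 h6 h7 h8 t
    exact congrFun (hJf i j k l i' j' k' l' h1 h2 h3 h4 h5 h6 h7 h8) t
  have hLc5 : 5 ≤ Lc := by omega
  have hα'inj : ∀ i < Lc + 1, ∀ j < Lc + 1, i ≠ j → α' i ≠ α' j := fun i hi j hj hij =>
    hαinj _ (hJN' i hi) _ (hJN' j hj) (hJne i j hij)
  -- the further vertices are not in the sequence
  have h6 : ∀ i j k : ℕ, i < j → j < k → k < Lc → η' i j ≠ α' k := by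
    intro i j k hij hjk hk e
    have e1 : η' 0 1 = α' 2 := (hf i j k Lc 0 1 2 4 hij hjk hk (by omega) (by omega) (by omega)
      (by omega) (by omega) 6).mp e
    have e2 : η' 0 1 = α' 3 := (hf i j k Lc 0 1 3 4 hij hjk hk (by omega) (by omega) (by omega)
      (by omega) (by omega) 6).mp e
    exact hα'inj 2 (by omega) 3 (by omega) (by omega) (e1.symm.trans e2)
  have h7 : ∀ i j k : ℕ, i < j → j < k → k < Lc → η' i k ≠ α' j := by
    intro i j k hij hjk hk e
    have e1 : η' 0 3 = α' 1 := (hf i j k Lc 0 1 3 4 hij hjk hk (by omega) (by omega) (by omega)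
      (by omega) (by omega) 7).mp e
    have e2 : η' 0 3 = α' 2 := (hf i j k Lc 0 2 3 4 hij hjk hk (by omega) (by omega) (by omega)
      (by omega) (by omega) 7).mp e
    exact hα'inj 1 (by omega) 2 (by omega) (by omega) (e1.symm.trans e2)
  have h8 : ∀ i j k : ℕ, i < j → j < k → k < Lc → η' j k ≠ α' i := by
    intro i j k hij hjk hk e
    have e1 : η' 2 3 = α' 0 := (hf i j k Lc 0 2 3 4 hij hjk hk (by omega) (by omega) (by omega)
      (by omega) (by omega) 8).mp e
    have e2 : η' 2 3 = α' 1 := (hf i j k Lc 1 2 3 4 hij hjk hk (by omega) (by omega) (by omega)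
      (by omega) (by omega) 8).mp e
    exact hα'inj 0 (by omega) 1 (by omega) (by omega) (e1.symm.trans e2)
  have hηspec : ∀ i < Lc + 1, ∀ j < Lc + 1, i ≠ j → η' i j ≠ w ∧ η' i j ∉ Bs (J i) (J j) ∧
      ∃ p q, p ∉ Zs w (η' i j) (Bs (J i) (J j)) ∧ q ∉ Zs w (η' i j) (Bs (J i) (J j)) ∧
        ¬ Rc G (Zs w (η' i j) (Bs (J i) (J j)))ᶜ p q := fun i hi j hj hij =>
    hyB _ (hBsc (J i) (hJN' i hi) (J j) (hJN' j hj) (hJne i j hij))
  have hη's : ∀ i j, η' i j = η' j i := fun i j => hηs _ _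
  have hC : Cfg G Z Lc α' η' := by
    refine ⟨?_, ?_, ?_, ?_, ?_, hη's, ?_⟩
    · intro i hi
      exact (hZx _).2 ⟨fun e => hwA (e ▸ hαA (J i) (hJN' i (by omega))),
        hαR (J i) (hJN' i (by omega))⟩
    · intro i hi j hj hij
      exact hα'inj i (by omega) j (by omega) hij
    · intro i hi z p q hp hq
      exact hone (J i) (hJN' i (by omega)) z p q hp hq
    · intro i hi j hj hij
      have h1 := hηspec i (by omega) j (by omega) hij
      exact (hZx _).2 ⟨h1.1, fun e => h1.2.1 (Or.inr (Or.inr e))⟩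
    · have key : ∀ i j k, i < j → j < Lc → k < Lc → η' i j ≠ α' k := by
        intro i j k hij hj hk
        have h1 := hηspec i (by omega) j (by omega) (by omega)
        rcases lt_trichotomy k i with h2 | h2 | h2
        · exact h8 k i j h2 hij hj
        · subst h2
          exact fun e => h1.2.1 (Or.inl e)
        · rcases lt_trichotomy k j with h3 | h3 | h3
          · exact h7 i k j h2 h3 hj
          · subst h3
            exact fun e => h1.2.1 (Or.inr (Or.inl e))
          · exact h6 i j k hij h3 hk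
      intro i hi j hj hij k hk
      rcases lt_or_gt_of_ne hij with h2 | h2
      · exact key i j k h2 hj hk
      · rw [hη's]
        exact key j i k h2 hi hk
    · intro i hi j hj hij
      obtain ⟨h1, h2, p, q, hp, hq, hpq⟩ := hηspec i (by omega) j (by omega) hij
      have hx : (Zs w (η' i j) (Bs (J i) (J j)))ᶜ = W3 Z (α' i) (α' j) (η' i j) := by
        ext x
        show x ∉ Zs w (η' i j) (Bs (J i) (J j)) ↔ x ∈ W3 Z (α' i) (α' j) (η' i j)
        rw [notMem_Zs, mem_Ux3, hZx]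
        show x ≠ w ∧ x ≠ η' i j ∧ ¬ (x = α' i ∨ x = α' j ∨ x ∈ R) ↔ _
        tauto
      rw [hx] at hpq
      exact ⟨p, hx ▸ hp, q, hx ▸ hq, hpq⟩
  have hH : Hom G Z Lc α' η' (Rc G (Wd Z α' η' 0 1) (α' 2) (α' 3))
      (Rc G (Wd Z α' η' 0 2) (α' 1) (α' 3)) (Rc G (Wd Z α' η' 0 3) (α' 1) (α' 2))
      (Rc G (Wd Z α' η' 1 2) (α' 0) (α' 3)) (Rc G (Wd Z α' η' 1 3) (α' 0) (α' 2))
      (Rc G (Wd Z α' η' 2 3) (α' 0) (α' 1)) := by
    intro i j k l hij hjk hkl hl
    have key := fun t => hf i j k l 0 1 2 3 hij hjk hkl (by omega) (by omega) (by omega)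
      (by omega) (by omega) t
    exact ⟨iff_of_eq (key 0), iff_of_eq (key 1), iff_of_eq (key 2), iff_of_eq (key 3),
      iff_of_eq (key 4), iff_of_eq (key 5)⟩
  rcases hC.dich hH (M := M) (by omega) (by omega) with hcl | ⟨y, hy⟩
  · -- no pair separates the other elements
    have hUex : ∀ i j, ∃ v, i < Lc → j < Lc → i ≠ j → v ∈ Wd Z α' η' i j ∧
        ∀ k < Lc, α' k ∉ cmp G (Wd Z α' η' i j) v := by
      intro i j
      by_cases hij : i < Lc ∧ j < Lc ∧ i ≠ j
      · obtain ⟨hi, hj, hij⟩ := hij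
        obtain ⟨p, hp, q, hq, hpq⟩ := hC.bad i hi j hj hij
        -- another element
        obtain ⟨k0, hk0, hk0i, hk0j⟩ : ∃ k0 < Lc, k0 ≠ i ∧ k0 ≠ j := by
          by_cases h1 : 0 ≠ i ∧ 0 ≠ j
          · exact ⟨0, by omega, h1.1, h1.2⟩
          · by_cases h2 : 1 ≠ i ∧ 1 ≠ j
            · exact ⟨1, by omega, h2.1, h2.2⟩
            · exact ⟨2, by omega, by omega, by omega⟩
        obtain ⟨v, hv, hvk⟩ : ∃ v ∈ Wd Z α' η' i j, ¬ Rc G (Wd Z α' η' i j) v (α' k0) := by
          by_cases h1 : Rc G (Wd Z α' η' i j) p (α' k0)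
          · exact ⟨q, hq, fun h2 => hpq (h1.trans h2.symm)⟩
          · exact ⟨p, hp, h1⟩
        refine ⟨v, fun _ _ _ => ⟨hv, fun k hk hkv => ?_⟩⟩
        have hkW := mem_Ux3.1 (cmp_subset hkv)
        have hki : k ≠ i := by
          rintro rfl
          exact hkW.2.1 rfl
        have hkj : k ≠ j := by
          rintro rfl
          exact hkW.2.2.1 rfl
        exact hvk (Rc.trans hkv (hcl i j k k0 hi hj hk hk0 hij hki hkj hk0i hk0j))
      · exact ⟨w, fun h1 h2 h3 => absurd ⟨h1, h2, h3⟩ hij⟩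
    choose v hv using hUex
    have hvk : ∀ i < Lc, ∀ j < Lc, i ≠ j → ∃ v' ∈ Wd Z α' η' i j,
        ¬ Rc G (Wd Z α' η' i j) (v i j) v' := by
      intro i hi j hj hij
      obtain ⟨k0, hk0, hk0i, hk0j⟩ : ∃ k0 < Lc, k0 ≠ i ∧ k0 ≠ j := by
        by_cases h1 : 0 ≠ i ∧ 0 ≠ j
        · exact ⟨0, by omega, h1.1, h1.2⟩
        · by_cases h2 : 1 ≠ i ∧ 1 ≠ j
          · exact ⟨1, by omega, h2.1, h2.2⟩
          · exact ⟨2, by omega, by omega, by omega⟩
      exact ⟨α' k0, hC.mem hi hj hk0 hij hk0i hk0j, (hv i j hi hj hij).2 k0 hk0⟩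
    have hF : Cl G w R Lc α' η' (fun i j => cmp G (Wd Z α' η' i j) (v i j)) := by
      have hαw : ∀ i < Lc, G.Adj w (α' i) := fun i hi => hAw _ (hαA (J i) (hJN' i (by omega)))
      have hUx : ∀ i j, ∀ z ∈ cmp G (Wd Z α' η' i j) (v i j), z ∉ Z ∧ z ≠ α' i ∧ z ≠ α' j ∧
          z ≠ η' i j := fun i j z hz => mem_Ux3.1 (cmp_subset hz)
      refine ⟨hαw, fun r hr => hAw r (hRA hr), hC.inj, fun i hi => hαR _ (hJN' i (by omega)),
        ?_, ?_, ?_, ?_, ?_, ?_, ?_, ?_, ?_, ?_, ?_, ?_⟩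
      · intro i hi j hj hij
        exact con_cmp (hv i j hi hj hij).1
      · intro i hi j hj hij hz
        exact (hUx i j w hz).1 (Or.inl rfl)
      · intro i hi j hj hij z hz hzR
        exact (hUx i j z hz).1 (Or.inr hzR)
      · rintro i hi j hj hij z hz k hk rfl
        exact (hv i j hi hj hij).2 k hk hz
      · intro i hi j hj hij z hz
        by_contra hcon
        push Not at hcon
        exact notMem_of_mem_nb_cmp hz (mem_Ux3.2 ⟨(hZx z).2 ⟨hcon.1, hcon.2.1⟩, hcon.2.2.1,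
          hcon.2.2.2.1, hcon.2.2.2.2⟩)
      · intro i hi j hj hij
        obtain ⟨v', hv', hn⟩ := hvk i hi j hj hij
        exact (hC.nb hi hj hij (hv i j hi hj hij).1 hv' hn).1
      · intro i hi j hj hij
        obtain ⟨v', hv', hn⟩ := hvk i hi j hj hij
        exact (hC.nb hi hj hij (hv i j hi hj hij).1 hv' hn).2.1
      · intro i hi j hj hij
        obtain ⟨v', hv', hn⟩ := hvk i hi j hj hij
        exact (hC.nb hi hj hij (hv i j hi hj hij).1 hv' hn).2.2
      · intro i hi j hj hij r hr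
        obtain ⟨v', hv', hn⟩ := hvk i hi j hj hij
        have hvv := mem_Ux3.1 (hv i j hi hj hij).1
        have hvv' := mem_Ux3.1 hv'
        refine nb_of_rc (hv i j hi hj hij).1 (fun e => (mem_Ux3.1 e).1 (Or.inr hr)) hn
          (htwo r hr (J i) (hJN' i (by omega)) (J j) (hJN' j (by omega)) (hJne i j hij)
            (η' i j) _ _ (mem_Ux3.2 ⟨fun e => hvv.1 e.1, hvv.2⟩)
            (mem_Ux3.2 ⟨fun e => hvv'.1 e.1, hvv'.2⟩)) ?_
        intro x hx hxr
        have hx' := mem_Ux3.1 hx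
        exact mem_Ux3.2 ⟨fun e => hx'.1 ⟨e, hxr⟩, hx'.2⟩
      · intro i hi j hj hij
        exact ((hZx _).1 (hC.eZ i hi j hj hij)).1
      · intro i hi j hj hij
        exact ((hZx _).1 (hC.eZ i hi j hj hij)).2
      · intro i hi j hj hij k hk
        exact hC.eA i hi j hj hij k hk
    exact hF.star h hn (by omega) hV
  · -- the cyclic arrangement
    by_cases hb3 : b = 2
    · have hR0 : R = ∅ := by
        rw [← ncard_eq_zero (toFinite _), hRc]
        omega
      have hZw : Z = {w} := by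
        rw [hZ, hR0]
        simp
      rw [hZw] at hy
      refine hy.good h (fun i hi => hAw _ (hαA _ (hJN' _ (by omega)))) hn (fun i => (n + 1) * i)
        (fun i => by ring) ?_ hV
      omega
    · exfalso
      obtain ⟨r, hr⟩ : R.Nonempty := by
        rw [← ncard_pos (toFinite _)]
        omega
      have hrw : r ≠ w := fun e => hwR (e ▸ hr)
      -- the bad set with three elements
      set B3 : Set V := insert (α' (4 * 1)) (insert (α' (4 * 3)) (insert (α' (4 * 5))
        (R \ {r}))) with hB3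
      have hα'A : ∀ i < Lc, α' i ∈ A := fun i hi => hαA _ (hJN' i (by omega))
      have hα'R : ∀ i < Lc, α' i ∉ R := fun i hi => hαR _ (hJN' i (by omega))
      have hM12 : 12 ≤ M := by omega
      have hbad3 : Bad G w B3 := by
        refine hbB _ (insert_subset (hα'A _ (by omega)) (insert_subset (hα'A _ (by omega))
          (insert_subset (hα'A _ (by omega)) (sdiff_subset.trans hRA)))) ?_
        rw [hB3, ncard_insert_of_notMem _ (toFinite _), ncard_insert_of_notMem _ (toFinite _),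
          ncard_insert_of_notMem _ (toFinite _), ncard_sdiff_singleton_of_mem hr, hRc]
        · omega
        · exact fun e => hα'R _ (by omega) e.1
        · rintro (e | e)
          · exact hC.inj _ (by omega) _ (by omega) (by omega) e
          · exact hα'R _ (by omega) e.1
        · rintro (e | e | e)
          · exact hC.inj _ (by omega) _ (by omega) (by omega) e
          · exact hC.inj _ (by omega) _ (by omega) (by omega) e
          · exact hα'R _ (by omega) e.1
      obtain ⟨y', hy'w, hy'B, p, q, hp, hq, hpq⟩ := hbad3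
      have hx : (Zs w y' B3)ᶜ = Ux (Z \ {r}) {α' (4 * 1), α' (4 * 3), α' (4 * 5), y'} := by
        ext x
        show x ∉ Zs w y' B3 ↔ _
        rw [notMem_Zs, mem_Ux4]
        show x ≠ w ∧ x ≠ y' ∧ ¬ (x = α' (4 * 1) ∨ x = α' (4 * 3) ∨ x = α' (4 * 5) ∨
          (x ∈ R ∧ x ∉ ({r} : Set V))) ↔ ¬ ((x = w ∨ x ∈ R) ∧ x ∉ ({r} : Set V)) ∧ _
        rw [mem_singleton_iff]
        constructor
        · rintro ⟨g1, g2, g3⟩
          tauto
        · rintro ⟨g1, g2⟩
          have : x ≠ w := by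
            rintro rfl
            exact g1 ⟨Or.inl rfl, fun e => hrw e.symm⟩
          tauto
      rw [hx] at hpq
      exact hy.six (by omega) (Or.inr hr : r ∈ Z)
        (fun i hi j hj hij z p q hp hq => htwo r hr _ (hJN' _ (by omega)) _ (hJN' _ (by omega))
          (hJne _ _ (by omega)) z p q hp hq)
        ⟨p, hx ▸ hp, q, hx ▸ hq, hpq⟩

end Pool.Agent.Lib.MP_d9512b_co
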