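import Pool.Agent.Lib.MP_d9512b_co.H4.Defs

set_option autoImplicit false

/-!
Patterns of the separations given by pairs of vertices: either no pair separates the others or
they are arranged cyclically.
-/

namespace Pool.Agent.Lib.MP_d9512b_co

open Set

variable {V : Type*} {G : SimpleGraph V} {Z : Set V} {L : ℕ} {α : ℕ → V} {η : ℕ → ℕ → V}

/-- The vertices outside of `Z` and the separator of `i` and `j`. -/
abbrev Wd (Z : Set V) (α : ℕ → V) (η : ℕ → ℕ → V) (i j : ℕ) : Set V := W3 Z (α i) (α j) (η i j)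

theorem Cfg.Wd_comm (C : Cfg G Z L α η) (i j : ℕ) : Wd Z α η i j = Wd Z α η j i := by
  unfold Wd
  rw [C.symm i j, W3_comm]

/-- The elements of the sequence are in the rest. -/
theorem Cfg.mem (C : Cfg G Z L α η) {i j k : ℕ} (hi : i < L) (hj : j < L) (hk : k < L)
    (hij : i ≠ j) (hki : k ≠ i) (hkj : k ≠ j) : α k ∈ Wd Z α η i j :=
  mem_Ux3.2 ⟨C.aZ k hk, C.inj k hk i hi hki, C.inj k hk j hj hkj,
    (C.eA i hi j hj hij k hk).symm⟩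

/-- Each component has all vertices of the separator as neighbours. -/
theorem Cfg.nb (C : Cfg G Z L α η) {i j : ℕ} (hi : i < L) (hj : j < L) (hij : i ≠ j) {v v' : V}
    (hv : v ∈ Wd Z α η i j) (hv' : v' ∈ Wd Z α η i j) (hn : ¬ Rc G (Wd Z α η i j) v v') :
    α i ∈ Nb G (cmp G (Wd Z α η i j) v) ∧ α j ∈ Nb G (cmp G (Wd Z α η i j) v) ∧
      η i j ∈ Nb G (cmp G (Wd Z α η i j) v) := by
  have key : ∀ t, t ∉ Wd Z α η i j → (∃ U : Set V, (∀ x ∈ U, x ≠ t → x ∈ Wd Z α η i j) ∧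
      Rc G U v v') → t ∈ Nb G (cmp G (Wd Z α η i j) v) := by
    rintro t ht ⟨U, hU, hr⟩
    have htc : t ∉ cmp G (Wd Z α η i j) v := fun h => ht (cmp_subset h)
    by_contra hcon
    refine hn (hr.mem_closed (X := cmp G (Wd Z α η i j) v) (mem_cmp_self hv) ?_)
    intro a ha b hb hab
    by_cases hbt : b = t
    · subst hbt
      exact absurd ⟨htc, a, ha, hab⟩ hcon
    · exact cmp_closed ha (hU b hb hbt) hab
  have hv1 := mem_Ux3.1 hv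
  have hv2 := mem_Ux3.1 hv'
  refine ⟨key _ (fun h => (mem_Ux3.1 h).2.1 rfl) ⟨Ux Z {α j, η i j}, ?_, ?_⟩,
    key _ (fun h => (mem_Ux3.1 h).2.2.1 rfl) ⟨Ux Z {α i, η i j}, ?_, ?_⟩,
    key _ (fun h => (mem_Ux3.1 h).2.2.2 rfl) ⟨Ux Z {α i, α j}, ?_, ?_⟩⟩
  · intro x hx hxt
    have := mem_Ux2.1 hx
    exact mem_Ux3.2 ⟨this.1, hxt, this.2.1, this.2.2⟩
  · exact C.one j hj _ _ _ (mem_Ux2.2 ⟨hv1.1, hv1.2.2.1, hv1.2.2.2⟩)
      (mem_Ux2.2 ⟨hv2.1, hv2.2.2.1, hv2.2.2.2⟩)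
  · intro x hx hxt
    have := mem_Ux2.1 hx
    exact mem_Ux3.2 ⟨this.1, this.2.1, hxt, this.2.2⟩
  · exact C.one i hi _ _ _ (mem_Ux2.2 ⟨hv1.1, hv1.2.1, hv1.2.2.2⟩)
      (mem_Ux2.2 ⟨hv2.1, hv2.2.1, hv2.2.2.2⟩)
  · intro x hx hxt
    have := mem_Ux2.1 hx
    exact mem_Ux3.2 ⟨this.1, this.2.1, this.2.2, hxt⟩
  · exact C.one i hi _ _ _ (mem_Ux2.2 ⟨hv1.1, hv1.2.1, hv1.2.2.1⟩)
      (mem_Ux2.2 ⟨hv2.1, hv2.2.1, hv2.2.2.1⟩)

/-- The separator is contained in the rest of another one. -/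
theorem Cfg.mem_or (C : Cfg G Z L α η) {i j : ℕ} {x : V} (hxZ : x ∉ Z)
    (hx : x ∉ Wd Z α η i j) : x = α i ∨ x = α j ∨ x = η i j := by
  by_contra hcon
  push Not at hcon
  exact hx (mem_Ux3.2 ⟨hxZ, hcon.1, hcon.2.1, hcon.2.2⟩)

/-- Four elements are not pairwise separated. -/
theorem Cfg.four (C : Cfg G Z L α η) {i j k l m m' : ℕ} (hi : i < L) (hj : j < L) (hk : k < L)
    (hl : l < L) (hm : m < L) (hm' : m' < L) (hij : i ≠ j) (hki : k ≠ i) (hkj : k ≠ j)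
    (hli : l ≠ i) (hlj : l ≠ j) (hmi : m ≠ i) (hmj : m ≠ j) (hmi' : m' ≠ i) (hmj' : m' ≠ j)
    (hkl : k ≠ l) (hmk : m ≠ k) (hml : m ≠ l) (hmk' : m' ≠ k) (hml' : m' ≠ l)
    (s1 : ¬ Rc G (Wd Z α η i j) (α k) (α l)) (s2 : ¬ Rc G (Wd Z α η i j) (α m) (α k))
    (s3 : ¬ Rc G (Wd Z α η i j) (α m) (α l)) (s4 : ¬ Rc G (Wd Z α η i j) (α m') (α k))
    (s5 : ¬ Rc G (Wd Z α η i j) (α m') (α l)) (s6 : ¬ Rc G (Wd Z α η i j) (α m) (α m')) :
    False := by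
  have hak := C.mem hi hj hk hij hki hkj
  have hal := C.mem hi hj hl hij hli hlj
  -- one of the components of `m` and `m'` avoids `η k l`
  obtain ⟨m0, hm0, hm0i, hm0j, hm0k, hm0l, t1, t2, hy⟩ : ∃ m0 < L, m0 ≠ i ∧ m0 ≠ j ∧ m0 ≠ k ∧
      m0 ≠ l ∧ ¬ Rc G (Wd Z α η i j) (α m0) (α k) ∧ ¬ Rc G (Wd Z α η i j) (α m0) (α l) ∧
      η k l ∉ cmp G (Wd Z α η i j) (α m0) := by
    by_cases h : η k l ∈ cmp G (Wd Z α η i j) (α m)
    · refine ⟨m', hm', hmi', hmj', hmk', hml', s4, s5, fun h' => s6 (Rc.trans h (Rc.symm h'))⟩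
    · exact ⟨m, hm, hmi, hmj, hmk, hml, s2, s3, h⟩
  set D := cmp G (Wd Z α η i j) (α m0) with hD
  have ham0 := C.mem hi hj hm0 hij hm0i hm0j
  have hDc : Con G D := con_cmp ham0
  obtain ⟨n1, n2, n3⟩ := C.nb hi hj hij ham0 hak t1
  have hDW : D ⊆ Wd Z α η k l := by
    intro x hx
    have h1 := mem_Ux3.1 (cmp_subset hx)
    refine mem_Ux3.2 ⟨h1.1, ?_, ?_, ?_⟩
    · rintro rfl
      exact t1 hx
    · rintro rfl
      exact t2 hx
    · rintro rfl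
      exact hy hx
  have hm0D : α m0 ∈ D := mem_cmp_self ham0
  -- a component of the rest for `k`, `l` which avoids `D`
  obtain ⟨p, hp, hpD⟩ : ∃ p ∈ Wd Z α η k l, ¬ Rc G (Wd Z α η k l) p (α m0) := by
    obtain ⟨p, hp, q, hq, hpq⟩ := C.bad k hk l hl hkl
    by_cases h : Rc G (Wd Z α η k l) p (α m0)
    · exact ⟨q, hq, fun h' => hpq (h.trans h'.symm)⟩
    · exact ⟨p, hp, h⟩
  set F := cmp G (Wd Z α η k l) p with hF
  have hFc : Con G F := con_cmp hp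
  obtain ⟨f1, f2, -⟩ := C.nb hk hl hkl hp (hDW hm0D) hpD
  -- `F` avoids the separator of `i` and `j`
  have hFT : ∀ t ∈ Nb G D, t ∉ F := by
    rintro t ⟨htD, d, hd, hdt⟩ htF
    exact hpD (Rc.trans (Rc.tail htF hdt.symm (hDW hd)) (hDc.rc hDW hd hm0D))
  have hFW : F ⊆ Wd Z α η i j := by
    intro x hx
    have h1 := mem_Ux3.1 (cmp_subset hx)
    refine mem_Ux3.2 ⟨h1.1, ?_, ?_, ?_⟩
    · rintro rfl
      exact hFT _ n1 hx
    · rintro rfl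
      exact hFT _ n2 hx
    · rintro rfl
      exact hFT _ n3 hx
  exact s1 (nb_link hFc f1 f2 hFW hak hal)

/-- The first element is connected to a later one. -/
theorem Cfg.left (C : Cfg G Z L α η) {o i j k l : ℕ} (ho : o < L) (hi : i < L) (hj : j < L)
    (hk : k < L) (hl : l < L) (hoi : o ≠ i) (hoj : o ≠ j) (hok : o ≠ k) (hol : o ≠ l)
    (hij : i ≠ j) (hik : i ≠ k) (hil : i ≠ l) (hjk : j ≠ k) (hjl : j ≠ l) (hkl : k ≠ l)
    (s1 : ¬ Rc G (Wd Z α η i j) (α o) (α k)) (s2 : ¬ Rc G (Wd Z α η i j) (α o) (α l))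
    (s3 : ¬ Rc G (Wd Z α η i k) (α o) (α j)) (s4 : ¬ Rc G (Wd Z α η i k) (α o) (α l))
    (s5 : ¬ Rc G (Wd Z α η i l) (α o) (α j)) (s6 : ¬ Rc G (Wd Z α η i l) (α o) (α k)) :
    False := by
  -- the vertex `η i k` lies in the component of `o` for `i j`
  have key : ∀ j k : ℕ, j < L → k < L → o ≠ j → o ≠ k → i ≠ j → i ≠ k → j ≠ k →
      ¬ Rc G (Wd Z α η i j) (α o) (α k) → ¬ Rc G (Wd Z α η i k) (α o) (α j) →
      η i k ∈ cmp G (Wd Z α η i j) (α o) := by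
    intro j k hj hk hoj hok hij hik hjk s1 s3
    have ho1 := C.mem hi hj ho hij hoi hoj
    have ho2 := C.mem hi hk ho hik hoi hok
    obtain ⟨-, ⟨-, c, hc, hcj⟩, -⟩ := C.nb hi hj hij ho1 (C.mem hi hj hk hij hik.symm hjk.symm) s1
    have hcX : c ∉ cmp G (Wd Z α η i k) (α o) := fun h =>
      s3 (cmp_closed h (C.mem hi hk hj hik hij.symm hjk) hcj)
    obtain ⟨a, ha, b, hb, ha1, hb1, hab⟩ := (con_cmp ho1).exists_edge
      (X := cmp G (Wd Z α η i k) (α o)) (mem_cmp_self ho2) (mem_cmp_self ho1) hcX hc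
    have hb2 : b ∉ Wd Z α η i k := fun h => hb (cmp_closed ha h hab)
    rcases C.mem_or (mem_Ux3.1 (cmp_subset hb1)).1 hb2 with rfl | rfl | rfl
    · exact absurd rfl (mem_Ux3.1 (cmp_subset hb1)).2.1
    · exact absurd hb1 s1
    · exact hb1
  have ho1 := C.mem hi hj ho hij hoi hoj
  obtain ⟨-, ⟨-, c, hc, hcj⟩, -⟩ := C.nb hi hj hij ho1 (C.mem hi hj hk hij hik.symm hjk.symm) s1
  set X1 := cmp G (Wd Z α η i j) (α o) with hX1
  set X2 := cmp G (Wd Z α η i k) (α o) with hX2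
  have hcX : c ∉ X2 := fun h => s3 (cmp_closed h (C.mem hi hk hj hik hij.symm hjk) hcj)
  have e1 : η i k ∈ X1 := key j k hj hk hoj hok hij hik hjk s1 s3
  have e2 : η i l ∈ X2 := key k l hk hl hok hol hik hil hkl s4 s6
  have e3 : η i k ∈ cmp G (Wd Z α η i l) (α o) := key l k hl hk hol hok hil hik hkl.symm s6 s4
  -- `X1` without `X2`
  have hXW : ∀ x ∈ X1, x ∉ X2 → x ∈ Wd Z α η i l := by
    intro x hx hx2
    have h1 := mem_Ux3.1 (cmp_subset hx)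
    refine mem_Ux3.2 ⟨h1.1, h1.2.1, ?_, ?_⟩
    · rintro rfl
      exact s2 hx
    · rintro rfl
      exact hx2 e2
  have e4 : η i k ∉ X2 := fun h => (mem_Ux3.1 (cmp_subset h)).2.2.2 rfl
  have hr : Rc G (Wd Z α η i l) c (η i k) := by
    have h1 : Rc G X1 c (η i k) := (con_cmp ho1).2 c hc _ e1
    by_contra hcon
    have h3 : ∀ a b, a ∈ X1 → a ∉ X2 → a ≠ η i k → b ∈ X1 → G.Adj a b → b ∉ X2 := by
      intro a b ha ha2 hne hb hab hb2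
      refine ha2 (cmp_closed hb2 (mem_Ux3.2 ⟨(mem_Ux3.1 (cmp_subset ha)).1,
        (mem_Ux3.1 (cmp_subset ha)).2.1, ?_, hne⟩) hab.symm)
      rintro rfl
      exact s1 ha
    have h2 : η i k ∈ {x | x ∈ X1 ∧ x ∉ X2 ∧ Rc G (Wd Z α η i l) c x} := by
      refine h1.mem_closed ⟨hc, hcX, Rc.refl (hXW c hc hcX)⟩ ?_
      rintro a ⟨ha1, ha2, ha3⟩ b hb hab
      have hne : a ≠ η i k := by
        rintro rfl
        exact hcon ha3
      have hb2 : b ∉ X2 := h3 a b ha1 ha2 hne hb hab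
      exact ⟨hb, hb2, ha3.tail hab (hXW b hb hb2)⟩
    exact hcon h2.2.2
  exact s5 (Rc.trans e3 (Rc.tail hr.symm hcj (C.mem hi hl hj hil hij.symm hjl)))

/-- The corner of two crossing separations. -/
theorem corner {a b c d y y' m x1 x2 : V} (hone : ∀ p q, p ∈ Ux Z {b, c} → q ∈ Ux Z {b, c} →
      Rc G (Ux Z {b, c}) p q) (haZ : a ∉ Z) (hdZ : d ∉ Z) (hyZ : y ∉ Z) (hy'Z : y' ∉ Z)
    (hab : a ≠ b) (hac : a ≠ c) (had : a ≠ d) (hay' : a ≠ y') (hbd : b ≠ d) (hcd : c ≠ d)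
    (hyc : y ≠ c) (hyd : y ≠ d) (hdy : d ≠ y) (hya' : y' ≠ a) (hyb' : y' ≠ b) (hyy : y ≠ y')
    (ha : a ∉ cmp G (W3 Z c d y') x2) (hd : d ∉ cmp G (W3 Z a b y) x1)
    (hm : m ∈ cmp G (W3 Z a b y) x1) (hm' : m ∈ cmp G (W3 Z c d y') x2) :
    y ∈ cmp G (W3 Z c d y') x2 ∨ y' ∈ cmp G (W3 Z a b y) x1 := by
  by_contra hcon
  push Not at hcon
  obtain ⟨h1, h2⟩ := hcon
  have hm1 := mem_Ux3.1 (cmp_subset hm)
  have hm2 := mem_Ux3.1 (cmp_subset hm')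
  have hr := hone m a (mem_Ux2.2 ⟨hm1.1, hm1.2.2.1, hm2.2.1⟩) (mem_Ux2.2 ⟨haZ, hab, hac⟩)
  have h3 : a ∈ cmp G (W3 Z a b y) x1 ∩ cmp G (W3 Z c d y') x2 := by
    refine hr.mem_closed ⟨hm, hm'⟩ ?_
    rintro e ⟨he1, he2⟩ f hf hef
    have hf' := mem_Ux2.1 hf
    have hfd : f ≠ d := by
      rintro rfl
      exact hd (cmp_closed he1 (mem_Ux3.2 ⟨hdZ, had.symm, hbd.symm, hdy⟩) hef)
    have hfy' : f ≠ y' := by
      rintro rfl
      exact h2 (cmp_closed he1 (mem_Ux3.2 ⟨hy'Z, hya', hyb', hyy.symm⟩) hef)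
    have hfa : f ≠ a := by
      rintro rfl
      exact ha (cmp_closed he2 (mem_Ux3.2 ⟨haZ, hac, had, hay'⟩) hef)
    have hfy : f ≠ y := by
      rintro rfl
      exact h1 (cmp_closed he2 (mem_Ux3.2 ⟨hyZ, hyc, hyd, hyy⟩) hef)
    exact ⟨cmp_closed he1 (mem_Ux3.2 ⟨hf'.1, hfa, hf'.2.1, hfy⟩) hef,
      cmp_closed he2 (mem_Ux3.2 ⟨hf'.1, hf'.2.2, hfd, hfy'⟩) hef⟩
  exact ha h3.2

end Pool.Agent.Lib.MP_d9512b_co
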