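import Pool.Agent.Lib.MP_d9512b_co.Ram

set_option autoImplicit false

/-!
Two applications of Ramsey's theorem.
-/

namespace Pool.Agent.Lib.MP_d9512b_co

open Set

/-- The neighbours for which badness depends on the number of elements only. -/
theorem ram1 (n L : ℕ) : ∃ N : ℕ, ∀ (V : Type) [Finite V] (G : SimpleGraph V) (w : V),
    N ≤ (Nb G {w}).ncard → ∃ a : ℕ → V, (∀ i < L, a i ∈ Nb G {w}) ∧
      (∀ i < L, ∀ j < L, i ≠ j → a i ≠ a j) ∧
      ∀ B ⊆ {v | ∃ i < L, v = a i}, ∀ B' ⊆ {v | ∃ i < L, v = a i}, B.ncard = B'.ncard →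
        B.ncard ≤ n → Bad G w B → Bad G w B' := by
  classical
  obtain ⟨N, hN⟩ := CodegDens.ramsey (Fin (n + 1) → Prop) n (L + n)
  refine ⟨N, fun V _ G w hdeg => ?_⟩
  obtain ⟨e0, he0, he0w⟩ := exists_fin_inj hdeg
  set e : ℕ → V := fun i => if hi : i < N then e0 ⟨i, hi⟩ else w with he
  have einj : ∀ i j, i < N → j < N → e i = e j → i = j := by
    intro i j hi hj hij
    simp only [he, dif_pos hi, dif_pos hj] at hij
    simpa using he0 hij
  have ew : ∀ i, i < N → e i ∈ Nb G {w} := by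
    intro i hi
    simp only [he, dif_pos hi]
    exact he0w _
  obtain ⟨J, hJ, hJN, hJf⟩ := hN (fun s => fun b => Bad G w {v | ∃ i < (b : ℕ), v = e (s i)}) (by
    intro s s' hss
    funext b
    have hb := b.2
    have h3 : {v | ∃ i < (b : ℕ), v = e (s i)} = {v | ∃ i < (b : ℕ), v = e (s' i)} := by
      ext v
      constructor
      · rintro ⟨i, hi, rfl⟩
        exact ⟨i, hi, by rw [hss i (by omega)]⟩
      · rintro ⟨i, hi, rfl⟩
        exact ⟨i, hi, by rw [hss i (by omega)]⟩
    rw [h3])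
  set a : ℕ → V := fun i => e (J i) with ha
  have hainj : ∀ i j, i < L → j < L → a i = a j → i = j := by
    intro i j hi hj hij
    exact hJ.injective (einj _ _ (hJN i (by omega)) (hJN j (by omega)) hij)
  refine ⟨a, fun i hi => ew _ (hJN i (by omega)), fun i hi j hj hij e =>
    hij (hainj i j hi hj e), ?_⟩
  have hen : ∀ B ⊆ {v | ∃ i < L, v = a i}, B.ncard ≤ n → ∃ s : ℕ → ℕ, StrictMono s ∧
      (∀ i, i < n → s i < L + n) ∧ {v | ∃ i < B.ncard, v = a (s i)} = B := by
    intro B hB hBn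
    set I : Finset ℕ := (Finset.range L).filter (fun i => a i ∈ B) with hI
    have hIa : a '' (I : Set ℕ) = B := by
      ext v
      constructor
      · rintro ⟨i, hi, rfl⟩
        rw [Finset.mem_coe, hI, Finset.mem_filter] at hi
        exact hi.2
      · intro hv
        obtain ⟨i, hiL, rfl⟩ := hB hv
        refine ⟨i, ?_, rfl⟩
        rw [Finset.mem_coe, hI, Finset.mem_filter, Finset.mem_range]
        exact ⟨hiL, hv⟩
    have hIr : I ⊆ Finset.range L := Finset.filter_subset _ _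
    have hIc : I.card = B.ncard := by
      rw [← hIa, InjOn.ncard_image, ncard_coe_finset]
      intro i hi j hj hij
      exact hainj i j (Finset.mem_range.1 (hIr hi)) (Finset.mem_range.1 (hIr hj)) hij
    obtain ⟨s, hs, hs1, hs2, hs3⟩ := exists_enum L I hIr
    refine ⟨s, hs, ?_, ?_⟩
    · intro i hi
      by_cases hic : i < I.card
      · have := Finset.mem_range.1 (hIr (hs1 i hic))
        omega
      · rw [hs3 i (not_lt.1 hic)]
        omega
    · rw [← hIc]
      conv_rhs => rw [← hIa]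
      ext v
      constructor
      · rintro ⟨i, hi, rfl⟩
        exact ⟨s i, hs1 i hi, rfl⟩
      · rintro ⟨j, hj, rfl⟩
        obtain ⟨i, hi, rfl⟩ := hs2 j hj
        exact ⟨i, hi, rfl⟩
  intro B hB B' hB' hBB hBn hbad
  obtain ⟨s, hs, hsb, hsB⟩ := hen B hB hBn
  obtain ⟨s', hs', hsb', hsB'⟩ := hen B' hB' (hBB ▸ hBn)
  have h1 := hJf s s' hs hsb hs' hsb'
  have h2 := congrFun h1 ⟨B.ncard, by omega⟩
  have h3 : Bad G w {v | ∃ i < B.ncard, v = a (s i)} := by
    rw [hsB]
    exact hbad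
  have h4 : Bad G w {v | ∃ i < B.ncard, v = a (s' i)} := by
    have h5 : Bad G w {v | ∃ i < B.ncard, v = a (s i)} =
      Bad G w {v | ∃ i < B.ncard, v = a (s' i)} := h2
    exact h5 ▸ h3
  rw [hBB, hsB'] at h4
  exact h4

/-- Ramsey's theorem for four indices. -/
theorem ram2 (L : ℕ) : ∃ N : ℕ, ∀ f : ℕ → ℕ → ℕ → ℕ → (Fin 9 → Prop), ∃ J : ℕ → ℕ,
    StrictMono J ∧ (∀ i < L, J i < N) ∧ ∀ i j k l i' j' k' l' : ℕ, i < j → j < k → k < l →
      l < L → i' < j' → j' < k' → k' < l' → l' < L →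
      f (J i) (J j) (J k) (J l) = f (J i') (J j') (J k') (J l') := by
  obtain ⟨N, hN⟩ := CodegDens.ramsey (Fin 9 → Prop) 4 L
  refine ⟨N, fun f => ?_⟩
  obtain ⟨J, hJ, hJN, hJf⟩ := hN (fun s => f (s 0) (s 1) (s 2) (s 3)) (by
    intro s s' h
    rw [h 0 (by omega), h 1 (by omega), h 2 (by omega), h 3 (by omega)])
  refine ⟨J, hJ, hJN, ?_⟩
  have hsm : ∀ i j k l : ℕ, i < j → j < k → k < l → l < L → StrictMono (fun r : ℕ =>
      if r = 0 then i else if r = 1 then j else if r = 2 then k else if r = 3 then l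
        else L + r) := by
    intro i j k l hij hjk hkl hl
    apply strictMono_nat_of_lt_succ
    intro r
    rcases r with _ | _ | _ | _ | r
    · simpa using hij
    · simpa using hjk
    · simpa using hkl
    · simp
      omega
    · simp
  have hbd : ∀ i j k l : ℕ, i < j → j < k → k < l → l < L → ∀ r, r < 4 →
      (if r = 0 then i else if r = 1 then j else if r = 2 then k else if r = 3 then l
        else L + r) < L := by
    intro i j k l hij hjk hkl hl r hr
    split_ifs <;> omega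
  intro i j k l i' j' k' l' h1 h2 h3 h4 h1' h2' h3' h4'
  have := hJf _ _ (hsm i j k l h1 h2 h3 h4) (hbd i j k l h1 h2 h3 h4) (hsm i' j' k' l' h1' h2' h3' h4')
    (hbd i' j' k' l' h1' h2' h3' h4')
  simpa using this

end Pool.Agent.Lib.MP_d9512b_co
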