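import Pool.Agent.Lib.MP_d9512b_co.H4.Defs

set_option autoImplicit false

/-!
Cyclic arrangements do not occur for bad sets with at least three elements.
-/

namespace Pool.Agent.Lib.MP_d9512b_co

open Set

variable {V : Type*} {G : SimpleGraph V} {Z : Set V} {L : ℕ} {β : ℕ → V} {y : V}

/-- If the rest with one more vertex `t` is connected then `t` is a neighbour of each component. -/
theorem nb_of_rc {U U' : Set V} {v v' t : V} (hv : v ∈ U) (ht : t ∉ U) (hn : ¬ Rc G U v v')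
    (hr : Rc G U' v v') (hU : ∀ x ∈ U', x ≠ t → x ∈ U) : t ∈ Nb G (cmp G U v) := by
  have htc : t ∉ cmp G U v := fun h => ht (cmp_subset h)
  by_contra hcon
  refine hn (hr.mem_closed (X := cmp G U v) (mem_cmp_self hv) ?_)
  intro a ha b hb hab
  by_cases hbt : b = t
  · subst hbt
    exact absurd ⟨htc, a, ha, hab⟩ hcon
  · exact cmp_closed ha (hU b hb hbt) hab

theorem Cyc.mem (C : Cyc G Z L β y) {i j k : ℕ} (hi : i < L) (hj : j < L) (hk : k < L)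
    (hki : k ≠ i) (hkj : k ≠ j) : β k ∈ W3 Z (β i) (β j) y :=
  mem_Ux3.2 ⟨C.bZ k hk, C.inj k hk i hi hki, C.inj k hk j hj hkj, (C.yB k hk).symm⟩

/-- The piece between `i` and `j` has the three neighbours. -/
theorem Cyc.nb (C : Cyc G Z L β y) {i j k l : ℕ} (hi : i < L) (hj : j < L) (hk : k < L)
    (hl : l < L) (hki : k ≠ i) (hkj : k ≠ j) (hli : l ≠ i) (hlj : l ≠ j)
    (hn : ¬ Rc G (W3 Z (β i) (β j) y) (β k) (β l)) :
    β i ∈ Nb G (cmp G (W3 Z (β i) (β j) y) (β k)) ∧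
      β j ∈ Nb G (cmp G (W3 Z (β i) (β j) y) (β k)) ∧
      y ∈ Nb G (cmp G (W3 Z (β i) (β j) y) (β k)) := by
  have hv := mem_Ux3.1 (C.mem hi hj hk hki hkj)
  have hv' := mem_Ux3.1 (C.mem hi hj hl hli hlj)
  refine ⟨nb_of_rc (C.mem hi hj hk hki hkj) (fun h => (mem_Ux3.1 h).2.1 rfl) hn
      (U' := Ux Z {β j, y}) ?_ ?_,
    nb_of_rc (C.mem hi hj hk hki hkj) (fun h => (mem_Ux3.1 h).2.2.1 rfl) hn
      (U' := Ux Z {β i, y}) ?_ ?_,
    nb_of_rc (C.mem hi hj hk hki hkj) (fun h => (mem_Ux3.1 h).2.2.2 rfl) hn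
      (U' := Ux Z {β i, β j}) ?_ ?_⟩
  · exact C.one j hj _ _ _ (mem_Ux2.2 ⟨hv.1, hv.2.2.1, hv.2.2.2⟩)
      (mem_Ux2.2 ⟨hv'.1, hv'.2.2.1, hv'.2.2.2⟩)
  · intro x hx hxt
    have := mem_Ux2.1 hx
    exact mem_Ux3.2 ⟨this.1, hxt, this.2.1, this.2.2⟩
  · exact C.one i hi _ _ _ (mem_Ux2.2 ⟨hv.1, hv.2.1, hv.2.2.2⟩)
      (mem_Ux2.2 ⟨hv'.1, hv'.2.1, hv'.2.2.2⟩)
  · intro x hx hxt
    have := mem_Ux2.1 hx
    exact mem_Ux3.2 ⟨this.1, this.2.1, hxt, this.2.2⟩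
  · exact C.one i hi _ _ _ (mem_Ux2.2 ⟨hv.1, hv.2.1, hv.2.2.1⟩)
      (mem_Ux2.2 ⟨hv'.1, hv'.2.1, hv'.2.2.1⟩)
  · intro x hx hxt
    have := mem_Ux2.1 hx
    exact mem_Ux3.2 ⟨this.1, this.2.1, this.2.2, hxt⟩

theorem Cyc.six (C : Cyc G Z L β y) (hL : 12 ≤ L) {r : V} (hr : r ∈ Z)
    (h2 : ∀ i < L, ∀ j < L, i ≠ j → ∀ z p q, p ∈ Ux (Z \ {r}) {β i, β j, z} →
      q ∈ Ux (Z \ {r}) {β i, β j, z} → Rc G (Ux (Z \ {r}) {β i, β j, z}) p q)
    {y' : V} (hbad : ∃ p ∈ Ux (Z \ {r}) {β 1, β 3, β 5, y'},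
      ∃ q ∈ Ux (Z \ {r}) {β 1, β 3, β 5, y'},
      ¬ Rc G (Ux (Z \ {r}) {β 1, β 3, β 5, y'}) p q) : False := by
  have hZ : ∀ x, x ∉ Z → x ∉ Z \ {r} := fun x hx h => hx h.1
  have hZr : ∀ x, x ∉ Z \ {r} → x ≠ r → x ∉ Z := fun x hx hxr h => hx ⟨h, hxr⟩
  have hbr : ∀ i < L, β i ≠ r := fun i hi e => C.bZ i hi (e ▸ hr)
  set T4 := Ux (Z \ {r}) {β 1, β 3, β 5, y'} with hT4
  -- neighbours of components
  have hnb : ∀ v ∈ T4, ∀ v' ∈ T4, ¬ Rc G T4 v v' → β 1 ∈ Nb G (cmp G T4 v) ∧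
      β 3 ∈ Nb G (cmp G T4 v) ∧ β 5 ∈ Nb G (cmp G T4 v) := by
    intro v hv v' hv' hn
    have g1 := mem_Ux4.1 hv
    have g2 := mem_Ux4.1 hv'
    refine ⟨nb_of_rc hv (fun h => (mem_Ux4.1 h).2.1 rfl) hn (h2 3 (by omega) 5 (by omega)
        (by omega) y' v v' (mem_Ux3.2 ⟨g1.1, g1.2.2.1, g1.2.2.2.1, g1.2.2.2.2⟩)
        (mem_Ux3.2 ⟨g2.1, g2.2.2.1, g2.2.2.2.1, g2.2.2.2.2⟩)) ?_,
      nb_of_rc hv (fun h => (mem_Ux4.1 h).2.2.1 rfl) hn (h2 1 (by omega) 5 (by omega)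
        (by omega) y' v v' (mem_Ux3.2 ⟨g1.1, g1.2.1, g1.2.2.2.1, g1.2.2.2.2⟩)
        (mem_Ux3.2 ⟨g2.1, g2.2.1, g2.2.2.2.1, g2.2.2.2.2⟩)) ?_,
      nb_of_rc hv (fun h => (mem_Ux4.1 h).2.2.2.1 rfl) hn (h2 1 (by omega) 3 (by omega)
        (by omega) y' v v' (mem_Ux3.2 ⟨g1.1, g1.2.1, g1.2.2.1, g1.2.2.2.2⟩)
        (mem_Ux3.2 ⟨g2.1, g2.2.1, g2.2.2.1, g2.2.2.2.2⟩)) ?_⟩
    · intro x hx hxt
      have := mem_Ux3.1 hx
      exact mem_Ux4.2 ⟨this.1, hxt, this.2.1, this.2.2.1, this.2.2.2⟩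
    · intro x hx hxt
      have := mem_Ux3.1 hx
      exact mem_Ux4.2 ⟨this.1, this.2.1, hxt, this.2.2.1, this.2.2.2⟩
    · intro x hx hxt
      have := mem_Ux3.1 hx
      exact mem_Ux4.2 ⟨this.1, this.2.1, this.2.2.1, hxt, this.2.2.2⟩
  -- a component without `y` and `r`
  have partA : ∀ v ∈ T4, ∀ v' ∈ T4, ¬ Rc G T4 v v' → r ∉ cmp G T4 v → y ∉ cmp G T4 v →
      False := by
    intro v hv v' hv' hn hrD hyD
    obtain ⟨n1, n3, n5⟩ := hnb v hv v' hv' hn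
    have hDc : Con G (cmp G T4 v) := con_cmp hv
    have hDx : ∀ x ∈ cmp G T4 v, x ∉ Z ∧ x ≠ β 1 ∧ x ≠ β 3 ∧ x ≠ β 5 ∧ x ≠ y := by
      intro x hx
      have h := mem_Ux4.1 (cmp_subset hx)
      exact ⟨hZr x h.1 (fun e => hrD (e ▸ hx)), h.2.1, h.2.2.1, h.2.2.2.1,
        fun e => hyD (e ▸ hx)⟩
    have hD2 : β 2 ∉ cmp G T4 v := by
      intro h
      have hsub : cmp G T4 v ⊆ W3 Z (β 1) (β 3) y := fun x hx =>
        mem_Ux3.2 ⟨(hDx x hx).1, (hDx x hx).2.1, (hDx x hx).2.2.1, (hDx x hx).2.2.2.2⟩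
      obtain ⟨-, c, hc, hc5⟩ := n5
      exact C.sepR 1 3 2 5 (by omega) (by omega) (by omega) (by omega)
        ((hDc.rc hsub h hc).tail hc5 (C.mem (by omega) (by omega) (by omega) (by omega)
          (by omega)))
    have hD4 : β 4 ∉ cmp G T4 v := by
      intro h
      have hsub : cmp G T4 v ⊆ W3 Z (β 3) (β 5) y := fun x hx =>
        mem_Ux3.2 ⟨(hDx x hx).1, (hDx x hx).2.2.1, (hDx x hx).2.2.2.1, (hDx x hx).2.2.2.2⟩
      obtain ⟨-, c, hc, hc1⟩ := n1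
      exact C.sepL 3 5 4 1 (by omega) (by omega) (by omega) (by omega)
        ((hDc.rc hsub h hc).tail hc1 (C.mem (by omega) (by omega) (by omega) (by omega)
          (by omega)))
    have hsub : cmp G T4 v ⊆ W3 Z (β 2) (β 4) y := fun x hx =>
      mem_Ux3.2 ⟨(hDx x hx).1, fun e => hD2 (e ▸ hx), fun e => hD4 (e ▸ hx),
        (hDx x hx).2.2.2.2⟩
    exact C.sepL 2 4 3 1 (by omega) (by omega) (by omega) (by omega)
      (nb_link hDc n3 n1 hsub (C.mem (by omega) (by omega) (by omega) (by omega) (by omega))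
        (C.mem (by omega) (by omega) (by omega) (by omega) (by omega)))
  obtain ⟨p, hp, q, hq, hpq⟩ := hbad
  by_cases hry : r = y'
  · have hrT : ∀ v, r ∉ cmp G T4 v := fun v h => (mem_Ux4.1 (cmp_subset h)).2.2.2.2 hry
    by_cases hy : y ∈ cmp G T4 p
    · exact partA q hq p hp (fun h => hpq h.symm) (hrT q) (fun h =>
        hpq (Rc.trans hy (Rc.symm h)))
    · exact partA p hp q hq hpq (hrT p) hy
  · have hrT4 : r ∈ T4 := mem_Ux4.2 ⟨fun h => h.2 rfl, (hbr 1 (by omega)).symm,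
      (hbr 3 (by omega)).symm, (hbr 5 (by omega)).symm, hry⟩
    obtain ⟨v, hv, v', hv', hn, hrv⟩ : ∃ v ∈ T4, ∃ v' ∈ T4, ¬ Rc G T4 v v' ∧
        r ∉ cmp G T4 v := by
      by_cases h : r ∈ cmp G T4 p
      · exact ⟨q, hq, p, hp, fun h' => hpq h'.symm, fun h' => hpq (Rc.trans h (Rc.symm h'))⟩
      · exact ⟨p, hp, q, hq, hpq, h⟩
    by_cases hy : y ∈ cmp G T4 v
    swap
    · exact partA v hv v' hv' hn hrv hy
    -- a piece without `y'`
    obtain ⟨i, j, k, hi, hik, hkj, hj, hyM⟩ : ∃ i j k, 5 < i ∧ i < k ∧ k < j ∧ j < L ∧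
        y' ∉ cmp G (W3 Z (β i) (β j) y) (β k) := by
      by_cases h1 : y' ∈ cmp G (W3 Z (β 6) (β 8) y) (β 7)
      · refine ⟨9, 11, 10, by omega, by omega, by omega, by omega, fun h3 => ?_⟩
        have hsub : cmp G (W3 Z (β 6) (β 8) y) (β 7) ⊆ W3 Z (β 9) (β 11) y := by
          intro x hx
          have h4 := mem_Ux3.1 (cmp_subset hx)
          refine mem_Ux3.2 ⟨h4.1, ?_, ?_, h4.2.2.2⟩
          · rintro rfl
            exact C.sepR 6 8 7 9 (by omega) (by omega) (by omega) (by omega) hx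
          · rintro rfl
            exact C.sepR 6 8 7 11 (by omega) (by omega) (by omega) (by omega) hx
        have h7 : β 7 ∈ W3 Z (β 6) (β 8) y :=
          C.mem (by omega) (by omega) (by omega) (by omega) (by omega)
        exact C.sepL 9 11 10 7 (by omega) (by omega) (by omega) (by omega)
          (Rc.trans h3 ((con_cmp h7).rc hsub h1 (mem_cmp_self h7)))
      · exact ⟨6, 8, 7, by omega, by omega, by omega, by omega, h1⟩
    have hkW : β k ∈ W3 Z (β i) (β j) y :=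
      C.mem (by omega) hj (by omega) (by omega) (by omega)
    have hMc : Con G (cmp G (W3 Z (β i) (β j) y) (β k)) := con_cmp hkW
    have hMT : cmp G (W3 Z (β i) (β j) y) (β k) ⊆ T4 := by
      intro x hx
      have h4 := mem_Ux3.1 (cmp_subset hx)
      refine mem_Ux4.2 ⟨hZ x h4.1, ?_, ?_, ?_, fun e => hyM (e ▸ hx)⟩
      · rintro rfl
        exact C.sepL i j k 1 (by omega) hik hkj hj hx
      · rintro rfl
        exact C.sepL i j k 3 (by omega) hik hkj hj hx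
      · rintro rfl
        exact C.sepL i j k 5 (by omega) hik hkj hj hx
    have hn1 : ¬ Rc G (W3 Z (β i) (β j) y) (β k) (β 1) := C.sepL i j k 1 (by omega) hik hkj hj
    obtain ⟨-, -, ⟨-, c, hc, hcy⟩⟩ := C.nb (i := i) (j := j) (k := k) (l := 1) (by omega) hj
      (by omega) (by omega) (by omega) (by omega) (by omega) (by omega) hn1
    have hkx := mem_Ux3.1 hkW
    have h1x := mem_Ux3.1 (C.mem (i := i) (j := j) (k := 1) (by omega) hj (by omega) (by omega)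
      (by omega))
    obtain ⟨-, d, hd, hdr⟩ : r ∈ Nb G (cmp G (W3 Z (β i) (β j) y) (β k)) := by
      refine nb_of_rc hkW (fun h => (mem_Ux3.1 h).1 hr) hn1
        (U' := Ux (Z \ {r}) {β i, β j, y}) ?_ ?_
      · exact h2 i (by omega) j hj (by omega) y _ _
          (mem_Ux3.2 ⟨hZ _ hkx.1, hkx.2⟩) (mem_Ux3.2 ⟨hZ _ h1x.1, h1x.2⟩)
      · intro x hx hxr
        have := mem_Ux3.1 hx
        exact mem_Ux3.2 ⟨hZr x this.1 hxr, this.2⟩
    refine hrv ?_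
    have h5 : c ∈ cmp G T4 v := cmp_closed hy (hMT hc) hcy.symm
    exact cmp_closed (Rc.trans h5 (hMc.rc hMT hc hd)) hrT4 hdr

end Pool.Agent.Lib.MP_d9512b_co
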